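import Pool.Agent.helper62.RS.SpecG

/-!
# Row rs:GLC (MP_07c750_an): the topology of `SL(2, ℝ)`
-/

open scoped MatrixGroups ContDiff Topology UpperHalfPlane
open UpperHalfPlane MeasureTheory Filter Set

namespace Pool.Agent.RS

theorem GLC_cont {f : ℝ → SL(2, ℝ)} (h : ∀ i j, Continuous fun t => (f t).1 i j) :
    Continuous f :=
  (Matrix.SpecialLinearGroup.isClosedEmbedding_val (n := Fin 2)
    (R := ℝ)).isInducing.continuous_iff.2 (continuous_matrix h)

theorem GLC_ext {a b : SL(2, ℝ)} (h : ∀ i j, a.1 i j = b.1 i j) : a = b :=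
  Subtype.ext (Matrix.ext h)

theorem GLC_k (k : SL(2, ℝ)) (hk : k • I = I) : ∃ θ, k = kM θ := by
  have h1 := congrArg (fun z : ℍ => (z : ℂ)) hk
  simp only [coe_specialLinearGroup_apply, UpperHalfPlane.coe_I] at h1
  have hd : k.1 0 0 * k.1 1 1 - k.1 0 1 * k.1 1 0 = 1 := by
    have := k.2
    rwa [Matrix.det_fin_two] at this
  have hne : (k.1 1 0 : ℂ) * Complex.I + k.1 1 1 ≠ 0 := by
    intro h0
    have r1 := congrArg Complex.re h0
    have r2 := congrArg Complex.im h0
    simp at r1 r2
    rw [r1, r2] at hd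
    simp at hd
  have h2 : (k.1 0 0 : ℂ) * Complex.I + k.1 0 1 =
      Complex.I * ((k.1 1 0 : ℂ) * Complex.I + k.1 1 1) := by
    have := (div_eq_iff hne).1 h1
    simpa using this
  have r1 := congrArg Complex.re h2
  have r2 := congrArg Complex.im h2
  simp at r1 r2
  have hs : k.1 0 0 ^ 2 + k.1 0 1 ^ 2 = 1 := by
    have e1 : k.1 1 1 = k.1 0 0 := r2.symm
    have e2 : k.1 1 0 = - k.1 0 1 := by linarith
    rw [e1, e2] at hd
    nlinarith
  obtain ⟨θ, hθ⟩ : ∃ θ : ℝ, Real.cos θ = k.1 0 0 ∧ Real.sin θ = k.1 0 1 := by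
    have hz : ‖(⟨k.1 0 0, k.1 0 1⟩ : ℂ)‖ = 1 := by
      rw [Complex.norm_def, Complex.normSq_apply]
      have : k.1 0 0 * k.1 0 0 + k.1 0 1 * k.1 0 1 = 1 := by linarith
      change Real.sqrt (k.1 0 0 * k.1 0 0 + k.1 0 1 * k.1 0 1) = 1
      rw [this, Real.sqrt_one]
    have hz0 : (⟨k.1 0 0, k.1 0 1⟩ : ℂ) ≠ 0 := by
      intro h0
      rw [h0] at hz
      simp at hz
    refine ⟨Complex.arg ⟨k.1 0 0, k.1 0 1⟩, ?_, ?_⟩
    · rw [Complex.cos_arg hz0, hz]
      simp
    · rw [Complex.sin_arg, hz]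
      simp
  refine ⟨θ, GLC_ext fun i j => ?_⟩
  fin_cases i <;> fin_cases j <;> simp [kM, hθ.1, hθ.2]
  · linarith
  · linarith

theorem GLC : GLC_stmt := by
  have hE := Matrix.SpecialLinearGroup.isClosedEmbedding_val (n := Fin 2) (R := ℝ)
  have i1 : LocallyCompactSpace (Matrix (Fin 2) (Fin 2) ℝ) :=
    inferInstanceAs (LocallyCompactSpace (Fin 2 → Fin 2 → ℝ))
  have i2 : SecondCountableTopology (Matrix (Fin 2) (Fin 2) ℝ) :=
    inferInstanceAs (SecondCountableTopology (Fin 2 → Fin 2 → ℝ))
  have hL : LocallyCompactSpace SL(2, ℝ) := hE.locallyCompactSpace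
  refine ⟨hL, hE.isEmbedding.secondCountableTopology, ?_, ?_, ?_, ?_, ?_, ?_, ?_, ?_, ?_, ?_, ?_,
    ?_, ?_, ?_, GLC_k, ?_, ?_, ?_⟩
  · intro K hK
    exact isProperMap_smul_I.isCompact_preimage hK
  · refine GLC_cont fun i j => ?_
    fin_cases i <;> fin_cases j <;> simp [aM] <;> fun_prop
  · refine GLC_cont fun i j => ?_
    fin_cases i <;> fin_cases j <;> simp [nM] <;> fun_prop
  · refine GLC_cont fun i j => ?_
    fin_cases i <;> fin_cases j <;> simp [lM] <;> fun_prop
  · refine GLC_cont fun i j => ?_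
    fin_cases i <;> fin_cases j <;> simp [kM] <;> fun_prop
  · intro t z
    rw [coe_specialLinearGroup_apply]
    simp only [aM, Matrix.of_apply, Matrix.cons_val', Matrix.cons_val_zero, Matrix.cons_val_one,
      Matrix.cons_val_fin_one]
    have e : (Real.exp t : ℂ) = (Real.exp (t / 2) : ℂ) / (Real.exp (-(t / 2)) : ℂ) := by
      rw [← Complex.ofReal_div, ← Real.exp_sub]
      congr 2
      ring
    rw [e]
    simp
    ring
  · intro x z
    rw [coe_specialLinearGroup_apply]
    simp [nM]
  · intro u z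
    rw [coe_specialLinearGroup_apply]
    simp [lM]
  · intro s t
    refine GLC_ext fun i j => ?_
    fin_cases i <;> fin_cases j <;>
      simp [aM, Matrix.mul_apply, ← Real.exp_add] <;> ring
  · intro s t
    refine GLC_ext fun i j => ?_
    fin_cases i <;> fin_cases j <;> simp [nM, Matrix.mul_apply, add_comm]
  · intro s t
    refine GLC_ext fun i j => ?_
    fin_cases i <;> fin_cases j <;> simp [lM, Matrix.mul_apply]
  · intro s t
    refine GLC_ext fun i j => ?_
    fin_cases i <;> fin_cases j <;>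
      simp [kM, Matrix.mul_apply, Real.cos_add, Real.sin_add] <;> ring
  · intro θ
    refine GLC_ext fun i j => ?_
    fin_cases i <;> fin_cases j <;> simp [kM]
  · intro θ
    refine UpperHalfPlane.ext ?_
    rw [coe_specialLinearGroup_apply]
    have hne : ((-Real.sin θ : ℝ) : ℂ) * Complex.I + (Real.cos θ : ℂ) ≠ 0 := by
      intro h0
      have r1 := congrArg Complex.re h0
      have r2 := congrArg Complex.im h0
      rw [Complex.add_re, Complex.re_ofReal_mul, Complex.I_re, Complex.ofReal_re,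
        Complex.zero_re] at r1
      rw [Complex.add_im, Complex.im_ofReal_mul, Complex.I_im, Complex.ofReal_im,
        Complex.zero_im] at r2
      have e1 : Real.cos θ = 0 := by linarith
      have e2 : Real.sin θ = 0 := by linarith
      have := Real.sin_sq_add_cos_sq θ
      rw [e1, e2] at this
      norm_num at this
    change (((Real.cos θ : ℝ) : ℂ) * Complex.I + ((Real.sin θ : ℝ) : ℂ)) /
      (((-Real.sin θ : ℝ) : ℂ) * Complex.I + (Real.cos θ : ℂ)) = Complex.I
    rw [div_eq_iff hne]
    push_cast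
    linear_combination (Complex.sin θ : ℂ) * Complex.I_sq
  · intro x t
    refine GLC_ext fun i j => ?_
    fin_cases i <;> fin_cases j <;> simp [nM, aM, Matrix.mul_apply]
    have : Real.exp (-(t / 2)) = Real.exp (t / 2) * Real.exp (-t) := by
      rw [← Real.exp_add]
      congr 1
      ring
    rw [this]
    ring
  · intro u t
    refine GLC_ext fun i j => ?_
    fin_cases i <;> fin_cases j <;> simp [lM, aM, Matrix.mul_apply]
    have : Real.exp (t / 2) = Real.exp (-(t / 2)) * Real.exp t := by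
      rw [← Real.exp_add]
      congr 1
      ring
    rw [this]
    ring
  · intro t
    refine GLC_ext fun i j => ?_
    fin_cases i <;> fin_cases j <;> simp [kM, aM, Matrix.mul_apply, neg_div]

end Pool.Agent.RS
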