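import Pool.Agent.helper62.RS.SpecE
import Pool.Agent.helper10.QU.FI2

/-!
# Row rs:ETD (MP_07c750_an): the data for the three lines argument
-/

set_option autoImplicit false

open scoped MatrixGroups ContDiff Topology UpperHalfPlane ComplexConjugate
open UpperHalfPlane MeasureTheory Filter Set

namespace Pool.Agent.RS

theorem ETD_cont {n : WithTop ℕ∞} {φ : ℍ → ℂ} (h : QU.CD n φ) : Continuous φ :=
  ((QU.CA1 ℂ).1 φ).1 ((QU.CA1 ℂ).2.1 φ 0 n bot_le h)

theorem ETD_inv {Γ : Subgroup SL(2, ℝ)} {lam : ℝ} {φ : ℍ → ℂ} (h : EigL Γ lam φ) : InvC Γ φ :=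
  ⟨ETD_cont h.1, h.2.1⟩

/-- the complex conjugate of an eigenfunction is an eigenfunction -/
theorem ETD_conj {Γ : Subgroup SL(2, ℝ)} {lam : ℝ} {φ : ℍ → ℂ} (h : EigL Γ lam φ) :
    EigL Γ lam (fun z => conj (φ z)) := by
  refine ⟨?_, fun γ z => congrArg (starRingEnd ℂ) (h.2.1 γ z), fun z => ?_⟩
  · exact Complex.conjCLE.contDiff.comp_contDiffOn h.1
  · have h1 := QU.FI2_lap (Complex.conjCLE : ℂ →L[ℝ] ℂ) φ h.1 z
    have h2 : (fun z => (Complex.conjCLE : ℂ →L[ℝ] ℂ) (φ z)) = fun z => conj (φ z) := rfl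
    rw [h2] at h1
    rw [h1]
    change conj (QU.lap φ z) = _
    rw [h.2.2 z, map_mul, Complex.conj_ofReal]

theorem ETD_invconj {Γ : Subgroup SL(2, ℝ)} {φ : ℍ → ℂ} (h : InvC Γ φ) :
    InvC Γ (fun z => conj (φ z)) :=
  ⟨Complex.continuous_conj.comp h.1, fun γ z => congrArg (starRingEnd ℂ) (h.2 γ z)⟩

section core

variable {Γ : Subgroup SL(2, ℝ)} {F : Set ℍ} {c : ℍ → ℂ} {r κ : ℝ}

theorem ETD_bm (hGBD : GBD_stmt) (hGWB : GWB_stmt) (hΓ : QU.SurfaceGroup Γ) {f φ : ℍ → ℂ}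
    (hf : Continuous f) (hs : HasCompactSupport f) (hφ : InvC Γ φ) : BM (Wf f φ) := by
  have h1 := (hGWB Γ f φ hΓ hf hs hφ).1
  exact ⟨h1.1.measurable, (hGBD Γ ℂ _ hΓ h1).1⟩

/-- the key computation -/
theorem ETD_core (hGBD : GBD_stmt) (hGWB : GWB_stmt) (hGDU : GDU_stmt) (hGR2 : GR2_stmt)
    (hΓ : QU.SurfaceGroup Γ) (hF : QU.NiceDom Γ F) (hc : TB (1 / 4) c) (hκ : 0 < κ)
    (hcont : Continuous (pk r c)) (hsupp : HasCompactSupport (pk r c))
    (hfb : ∀ u : ℍ → ℂ, InvC Γ u → qn F c r u ≤ κ * nn F u) {s : ℝ} {ψ : ℍ → ℂ}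
    (hψ : EigL Γ (1 / 4 + s ^ 2) ψ) {w : SL(2, ℝ) → ℂ} (hw : BM w) :
    ∫ g in dG F, ∫ g' in dG F, conj (Wf (pk r c) ψ g) * kk Γ F (pk r c) g g' * w g' ∂mG ∂mG =
      ((bk (cc c) r s : ℝ) : ℂ) * ∫ g in dG F, w g * Wf (pk r c) (fun z => conj (ψ z)) g ∂mG := by
  have hW : BM (fun g => conj (Wf (pk r c) ψ g)) := by
    obtain ⟨h1, m, hm⟩ := ETD_bm hGBD hGWB hΓ hcont hsupp (ETD_inv hψ)
    exact ⟨Complex.continuous_conj.measurable.comp h1, m, fun g => by
      rw [RCLike.norm_conj]; exact hm g⟩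
  obtain ⟨-, h2, h3, -⟩ := hGDU Γ F (pk r c) κ hΓ hF hcont hsupp hκ.le hfb _ w hW.1 hw.1 hW.2 hw.2
  obtain ⟨k1, k2, -, -⟩ := hGDU Γ F (pk r c) κ hΓ hF hcont hsupp hκ.le hfb w w hw.1 hw.1 hw.2 hw.2
  have hg := (hGR2 Γ F hΓ hF s ψ hψ).1 c (sy Γ F (pk r c) w) r hc k1
  rw [h3, h2 _ k1]
  have e1 : ∫ g in dG F, conj (Wf (pk r c) ψ g) * Wf (pk r c) (sy Γ F (pk r c) w) g ∂mG =
      conj (iG F (fun g => Wf (pk r c) ψ g * conj (Wf (pk r c) (sy Γ F (pk r c) w) g))) := by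
    unfold iG
    rw [← integral_conj]
    refine integral_congr_ae (Eventually.of_forall fun g => ?_)
    simp only [map_mul, Complex.conj_conj]
  rw [e1, hg, map_mul, Complex.conj_ofReal, mul_comm]
  congr 1
  rw [← k2 _ (ETD_invconj (ETD_inv hψ)), ← integral_conj]
  refine integral_congr_ae (Eventually.of_forall fun z => ?_)
  simp only [map_mul, Complex.conj_conj]
  ring

end core

theorem ETD (hGLC : GLC_stmt) (hGMG : GMG_stmt) (hGFD : GFD_stmt) (hGBD : GBD_stmt)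
    (hGWB : GWB_stmt) (hGPE : GPE_stmt) (hGDU : GDU_stmt) (hFL0 : FL0_stmt) (hGR2 : GR2_stmt) :
    ETD_stmt := by
  intro Γ F c r κ k₀ N s φ hΓ hF hc hκ hk₀ hfb hkk hφ hon
  have : SecondCountableTopology SL(2, ℝ) := hGLC.2.1
  have hT := hFL0.2.1 _ r c hc
  have hcont : Continuous (pk r c) := ETD_cont hT.1
  have hsupp : HasCompactSupport (pk r c) := hT.2
  have hψ : ∀ j, EigL Γ (1 / 4 + s j ^ 2) (fun z => conj (φ j z)) := fun j => ETD_conj (hφ j)
  have hnn : ∀ j, nn F (φ j) = 1 := by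
    intro j
    have h1 := hon j j
    rw [if_pos rfl] at h1
    have h2 : (∫ z in F, φ j z * conj (φ j z)) = ((nn F (φ j) : ℝ) : ℂ) := by
      unfold nn
      rw [← integral_complex_ofReal]
      refine integral_congr_ae (Eventually.of_forall fun z => ?_)
      simp only [Complex.mul_conj, Complex.normSq_eq_norm_sq]
    rw [h2] at h1
    exact_mod_cast h1
  have hqn : ∀ j, qn F c r (φ j) = bk (cc c) r (s j) := by
    intro j
    rw [(hGR2 Γ F hΓ hF (s j) (φ j) (hφ j)).2 c r hc, hnn j, one_mul]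
  have hκA : ∀ j, κ * (qn F c r (φ j) / κ) = bk (cc c) r (s j) := by
    intro j
    rw [mul_div_cancel₀ _ hκ.ne', hqn j]
  have hbmW : ∀ u : ℍ → ℂ, InvC Γ u → BM (Wf (pk r c) u) := fun u hu =>
    ETD_bm hGBD hGWB hΓ hcont hsupp hu
  have hbmc : ∀ w : SL(2, ℝ) → ℂ, BM w → BM (fun g => conj (w g)) := by
    rintro w ⟨h1, m, hm⟩
    exact ⟨Complex.continuous_conj.measurable.comp h1, m, fun g => by
      rw [RCLike.norm_conj]; exact hm g⟩
  have hkc : Continuous (fun p : SL(2, ℝ) × SL(2, ℝ) => kk Γ F (pk r c) p.1 p.2) :=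
    (hGPE Γ F (pk r c) hΓ hF hcont hsupp).2.2.2.2.2.2
  -- conjugation of the double integral
  have hdc : ∀ u v : SL(2, ℝ) → ℂ, ∫ x in dG F, ∫ y in dG F, u x * conj (kk Γ F (pk r c) x y) * v y ∂mG ∂mG =
      conj (∫ x in dG F, ∫ y in dG F, conj (u x) * kk Γ F (pk r c) x y * conj (v y) ∂mG ∂mG) := by
    intro u v
    rw [← integral_conj]
    refine integral_congr_ae (Eventually.of_forall fun x => ?_)
    simp only
    rw [← integral_conj]
    refine integral_congr_ae (Eventually.of_forall fun y => ?_)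
    simp only [map_mul, Complex.conj_conj]
  refine ⟨hκ, hk₀, ?_, ?_, ?_, ?_, ?_, ?_, ?_, ?_, ?_, ?_, ?_⟩
  · exact (Complex.continuous_conj.comp hkc).measurable
  · intro x y
    rw [RCLike.norm_conj]
    exact hkk x y
  · exact fun j => hbmc _ (hbmW _ (ETD_invconj (ETD_inv (hφ j))))
  · exact fun j => hbmW _ (ETD_inv (hφ j))
  · intro j
    refine div_nonneg ?_ hκ.le
    unfold qn iR
    exact integral_nonneg fun g => by positivity
  · intro j
    rw [div_le_one hκ]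
    have h1 := hfb (φ j) (ETD_inv (hφ j))
    rwa [hnn j, mul_one] at h1
  · intro u v hu hv
    obtain ⟨-, -, -, h4⟩ := hGDU Γ F (pk r c) κ hΓ hF hcont hsupp hκ.le hfb _ _ (hbmc u hu).1
      (hbmc v hv).1 (hbmc u hu).2 (hbmc v hv).2
    rw [hdc u v, RCLike.norm_conj]
    simpa only [RCLike.norm_conj] using h4
  · intro i j
    have h1 := (hGR2 Γ F hΓ hF (s i) _ (hψ i)).1 c (fun z => conj (φ j z)) r hc
      (ETD_invconj (ETD_inv (hφ j)))
    have h2 : (∫ z in F, conj (φ i z) * conj (conj (φ j z))) = if i = j then 1 else 0 := by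
      have h3 := congrArg (starRingEnd ℂ) (hon i j)
      rw [← integral_conj] at h3
      simp only [map_mul] at h3
      rw [h3]
      split_ifs <;> simp
    rw [h2] at h1
    have h4 : ∫ g in dG F, conj (Wf (pk r c) (fun z => conj (φ i z)) g) *
        conj (conj (Wf (pk r c) (fun z => conj (φ j z)) g)) ∂mG =
        conj (iG F (fun g => Wf (pk r c) (fun z => conj (φ i z)) g *
          conj (Wf (pk r c) (fun z => conj (φ j z)) g))) := by
      unfold iG
      rw [← integral_conj]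
      refine integral_congr_ae (Eventually.of_forall fun g => ?_)
      simp only [map_mul]
    rw [h4, h1]
    by_cases hij : i = j
    · subst hij
      simp only [if_true, one_mul, Complex.conj_ofReal]
      rw [hκA]
    · simp only [if_neg hij, zero_mul, map_zero]
  · intro i j
    have h1 := (hGR2 Γ F hΓ hF (s i) _ (hφ i)).1 c (φ j) r hc (ETD_inv (hφ j))
    rw [hon i j] at h1
    change iG F (fun g => Wf (pk r c) (φ i) g * conj (Wf (pk r c) (φ j) g)) = _
    rw [h1]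
    by_cases hij : i = j
    · subst hij
      simp only [if_true, one_mul]
      rw [hκA]
    · simp only [if_neg hij, zero_mul]
  · intro j u hu
    have h1 := ETD_core hGBD hGWB hGDU hGR2 hΓ hF hc hκ hcont hsupp hfb (hφ j) (hbmc u hu)
    have hbj := hbmc _ (hbmW _ (ETD_inv (hφ j)))
    obtain ⟨-, -, h3, -⟩ := hGDU Γ F (pk r c) κ hΓ hF hcont hsupp hκ.le hfb _ _ (hbmc u hu).1
      hbj.1 (hbmc u hu).2 hbj.2
    obtain ⟨-, -, h4, -⟩ := hGDU Γ F (pk r c) κ hΓ hF hcont hsupp hκ.le hfb _ _ hbj.1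
      (hbmc u hu).1 hbj.2 (hbmc u hu).2
    rw [hdc, h3]
    have h5 : (∫ z in F, sy Γ F (pk r c) (fun g => conj (u g)) z *
        sy Γ F (pk r c) (fun g => conj (Wf (pk r c) (φ j) g)) z) =
        ∫ z in F, sy Γ F (pk r c) (fun g => conj (Wf (pk r c) (φ j) g)) z *
        sy Γ F (pk r c) (fun g => conj (u g)) z :=
      integral_congr_ae (Eventually.of_forall fun z => mul_comm _ _)
    rw [h5, ← h4, h1, map_mul, Complex.conj_ofReal, ← integral_conj, hκA]
    congr 1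
    refine integral_congr_ae (Eventually.of_forall fun g => ?_)
    simp only [map_mul, Complex.conj_conj]
  · intro j v hv
    have h1 := ETD_core hGBD hGWB hGDU hGR2 hΓ hF hc hκ hcont hsupp hfb (hψ j) (hbmc v hv)
    rw [hdc]
    simp only [Complex.conj_conj] at h1 ⊢
    rw [h1, map_mul, Complex.conj_ofReal, ← integral_conj, hκA]
    congr 1
    refine integral_congr_ae (Eventually.of_forall fun g => ?_)
    simp only [map_mul, Complex.conj_conj]
    ring

end Pool.Agent.RS
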