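import Pool.Agent.helper2.RS.GPE
import Pool.Agent.helper20.RS.QRC
import Pool.Agent.helper21.RS.QEX
import Pool.Agent.helper21.RS.QNT
import Pool.Agent.helper23.RS.ESC
import Pool.Agent.helper23.RS.GBK
import Pool.Agent.helper24.RS.TH4
import Pool.Agent.helper25.RS.SOD
import Pool.Agent.helper25.RS.SPO
import Pool.Agent.helper28.RS.EGE
import Pool.Agent.helper28.RS.IN0
import Pool.Agent.helper29.RS.FL1
import Pool.Agent.helper29.RS.FL2
import Pool.Agent.helper29.RS.FL3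
import Pool.Agent.helper29.RS.GR2
import Pool.Agent.helper29.RS.OV2
import Pool.Agent.helper3.RS.SCV
import Pool.Agent.helper32.RS.SMV
import Pool.Agent.helper34.RS.INA
import Pool.Agent.helper34.RS.TH2
import Pool.Agent.helper35.RS.SGR
import Pool.Agent.helper39.RS.EP2
import Pool.Agent.helper42.RS.GDU
import Pool.Agent.helper43.RS.GYN
import Pool.Agent.helper48.RS.SPW
import Pool.Agent.helper50.RS.QEQ
import Pool.Agent.helper52.RS.SEQ
import Pool.Agent.helper54.RS.NR3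
import Pool.Agent.helper54.RS.QDV
import Pool.Agent.helper55.RS.OV1
import Pool.Agent.helper56.RS.NM2
import Pool.Agent.helper56.RS.NRL
import Pool.Agent.helper56.RS.VDC
import Pool.Agent.helper58.RS.FL4
import Pool.Agent.helper58.RS.GFD
import Pool.Agent.helper58.RS.QEF
import Pool.Agent.helper6.RS.EP1
import Pool.Agent.helper6.RS.INB
import Pool.Agent.helper60.RS.TH3
import Pool.Agent.helper62.RS.ETD
import Pool.Agent.helper62.RS.GLC
import Pool.Agent.helper62.RS.LPI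
import Pool.Agent.helper65.RS.BK1
import Pool.Agent.helper65.RS.BK2
import Pool.Agent.helper65.RS.BK3
import Pool.Agent.helper65.RS.BK4
import Pool.Agent.helper65.RS.BK5
import Pool.Agent.helper65.RS.BKA
import Pool.Agent.helper65.RS.BKB
import Pool.Agent.helper65.RS.OIB
import Pool.Agent.helper72.RS.PKT
import Pool.Agent.helper74.RS.ENM
import Pool.Agent.helper74.RS.ESM
import Pool.Agent.helper79.RS.NR1
import Pool.Agent.helper8.RS.EIN
import Pool.Agent.helper8.RS.NR4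
import Pool.Agent.helper80.RS.EKB
import Pool.Agent.helper80.RS.QAV
import Pool.Agent.helper80.RS.QZD
import Pool.Agent.helper80.RS.SCA
import Pool.Agent.helper83.RS.GLI
import Pool.Agent.helper83.RS.GWB
import Pool.Agent.helper87.RS.GKB
import Pool.Agent.helper88.RS.FL0
import Pool.Agent.helper88.RS.TH1
import Pool.Agent.helper9.RS.GRI
import Pool.Agent.helper9.RS.TRV
import Pool.Agent.helper90.RS.NRF
import Pool.Agent.helper92.RS.EF1
import Pool.Agent.helper92.RS.GMG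
import Pool.Agent.helper97.RS.ALH
import Pool.Agent.helper97.RS.CV1
import Pool.Agent.helper97.RS.EFD
import Pool.Agent.helper97.RS.GBD
import Pool.Agent.helper97.RS.GIP
import Pool.Agent.helper97.RS.NR5
import Pool.Agent.helper98.RS.NR2
import Pool.Agent.helper98.RS.VOL

/-!
# MP_07c750: scars of eigenfunctions are rare: assembly of the rows
-/

set_option autoImplicit false

namespace Pool.Agent.RS

theorem A_GLC : GLC_stmt := GLC
theorem A_GMG : GMG_stmt := GMG A_GLC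
theorem A_GLI : GLI_stmt := GLI A_GLC A_GMG
theorem A_GRI : GRI_stmt := GRI A_GLC A_GMG A_GLI
theorem A_GFD : GFD_stmt := GFD A_GLC A_GMG A_GLI A_GRI
theorem A_GBD : GBD_stmt := GBD A_GLC
theorem A_CV1 : CV1_stmt := CV1
theorem A_FL0 : FL0_stmt := FL0
theorem A_ALH : ALH_stmt := ALH
theorem A_OIB : OIB_stmt := OIB
theorem A_BKA : BKA_stmt := BKA A_OIB
theorem A_BKB : BKB_stmt := BKB A_OIB
theorem A_BK1 : BK1_stmt := BK1 A_BKA A_BKB
theorem A_BK2 : BK2_stmt := BK2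
theorem A_BK3 : BK3_stmt := BK3 A_BK1 A_BK2
theorem A_BK4 : BK4_stmt := BK4
theorem A_BK5 : BK5_stmt := BK5 A_BK3 A_BK4
theorem A_GWB : GWB_stmt := GWB A_GLC A_GBD
theorem A_SEQ : SEQ_stmt := SEQ
theorem A_SPO : SPO_stmt := SPO A_GLC A_SEQ
theorem A_SOD : SOD_stmt := SOD
theorem A_SCV : SCV_stmt := SCV A_GLC A_GMG A_GRI
theorem A_SPW : SPW_stmt := SPW A_GLC A_SEQ A_SCV
theorem A_SMV : SMV_stmt := SMV A_GLC A_SPO A_SOD A_SPW
theorem A_SCA : SCA_stmt := SCA A_GLC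
theorem A_SGR : SGR_stmt := SGR A_GLC A_GFD A_GBD A_GWB A_SEQ A_SMV A_SCA A_SPW
theorem A_GBK : GBK_stmt := GBK A_GLC A_FL0 A_CV1
theorem A_GR2 : GR2_stmt := GR2 A_FL0 A_SGR A_GBK
theorem A_LPI : LPI_stmt := LPI
theorem A_FL4 : FL4_stmt := FL4 A_FL0 A_LPI
theorem A_GYN : GYN_stmt := GYN A_GLC A_GMG A_GFD A_GBD A_GWB
theorem A_TRV : TRV_stmt := TRV A_FL0 A_GYN
theorem A_EF1 : EF1_stmt := EF1 A_GFD A_GBD A_GWB A_CV1 A_BK3 A_FL0 A_FL4 A_TRV A_GR2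
theorem A_NR1 : NR1_stmt := NR1 A_GLC A_GMG A_GLI
theorem A_NR2 : NR2_stmt := NR2 A_GLC A_GMG A_GLI A_GRI A_GFD A_GBD A_GWB A_NR1
theorem A_NR3 : NR3_stmt := NR3
theorem A_NRF : NRF_stmt := NRF
theorem A_NR4 : NR4_stmt := NR4
theorem A_NRL : NRL_stmt := NRL A_NR4
theorem A_NR5 : NR5_stmt := NR5 A_GLC A_NR1 A_NR2 A_NR3 A_NRF A_NRL
theorem A_NM2 : NM2_stmt := NM2 A_ALH A_BK5 A_CV1 A_FL0 A_GR2 A_EF1 A_NR5
theorem A_VDC : VDC_stmt := VDC
theorem A_OV1 : OV1_stmt := OV1 A_GLC A_FL0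
theorem A_OV2 : OV2_stmt := OV2 A_OIB A_VDC A_CV1 A_FL0 A_OV1
theorem A_IN0 : IN0_stmt := IN0 A_GLC A_GBD
theorem A_GIP : GIP_stmt := GIP A_GLC A_GMG A_GFD A_GBD
theorem A_FL1 : FL1_stmt := FL1 A_GLC A_FL0
theorem A_FL2 : FL2_stmt := FL2 A_GLC A_FL0
theorem A_FL3 : FL3_stmt := FL3 A_GLC A_FL0
theorem A_INA : INA_stmt := INA A_GLC A_GFD A_GBD A_GIP A_GWB A_FL0 A_FL1 A_FL2 A_FL3 A_FL4
theorem A_INB : INB_stmt := INB A_GLC A_GMG A_GFD A_GBD A_GWB A_BK3 A_CV1 A_FL0 A_GR2 A_IN0 A_INA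
theorem A_QNT : QNT_stmt := QNT A_GLC A_GFD A_GBD A_GWB A_CV1 A_FL0
theorem A_PKT : PKT_stmt := PKT A_CV1 A_FL0 A_NM2 A_OV2 A_INB A_QNT
theorem A_GPE : GPE_stmt := GPE A_GLC A_GMG
theorem A_GKB : GKB_stmt := GKB A_GLC A_GPE
theorem A_EKB : EKB_stmt := EKB A_GLC A_GKB A_FL0
theorem A_GDU : GDU_stmt := GDU A_GLC A_GMG A_GFD A_GBD A_GWB A_GPE
theorem A_ETD : ETD_stmt := ETD A_GLC A_GMG A_GFD A_GBD A_GWB A_GPE A_GDU A_FL0 A_GR2
theorem A_TH1 : TH1_stmt := TH1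
theorem A_TH2 : TH2_stmt := TH2
theorem A_TH3 : TH3_stmt := TH3
theorem A_TH4 : TH4_stmt := TH4 A_TH1 A_TH2 A_TH3
theorem A_EIN : EIN_stmt := EIN A_GLC A_GMG A_GFD A_GBD A_GWB A_FL0 A_ETD A_TH4
theorem A_ENM : ENM_stmt := ENM
theorem A_EP1 : EP1_stmt := EP1 A_GFD A_GBD A_PKT A_EKB A_EIN A_ENM
theorem A_ESM : ESM_stmt := ESM
theorem A_EP2 : EP2_stmt := EP2 A_GLC A_GMG A_GFD A_GBD A_EP1 A_ESM
theorem A_EGE : EGE_stmt := EGE A_GLC A_SCA
theorem A_VOL : VOL_stmt := VOL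
theorem A_ESC : ESC_stmt := ESC A_GLC A_GMG A_GFD A_GBD A_EGE A_VOL A_EP2
theorem A_EFD : EFD_stmt := EFD A_GLC A_GMG A_GFD A_GBD A_EP2 A_ESC
theorem A_QDV : QDV_stmt := QDV A_GLC A_GBD A_SEQ
theorem A_QAV : QAV_stmt := QAV A_GLC
theorem A_QZD : QZD_stmt := QZD A_GLC A_QAV
theorem A_QEQ : QEQ_stmt := QEQ A_GLC A_GBD A_QDV A_QZD
theorem A_QRC : QRC_stmt := QRC A_GLC
theorem A_QEX : QEX_stmt := QEX A_GLC A_GBD A_QDV A_ESM A_QEQ A_QRC
theorem A_QEF : QEF_stmt := QEF A_GLC A_GMG A_GFD A_GBD A_QEX A_EP2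

end Pool.Agent.RS
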