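import Pool.Agent.helper62.RS.Defs

/-!
# MP_07c750, rare scars: rows of block G (the group `SL(2, ℝ)`, its measure, `Γ \ G`), rows `rs:X`

Prove `X_stmt` in `Pool/Agent/<seat>/RS/X.lean`, namespace `Pool.Agent.RS`, auxiliary lemmas prefixed `X_`.
The proved rows `QU.INV`, `QU.DOM`, `QU.DOB`, `QU.BDD`, ... may be used.
-/

open scoped MatrixGroups ContDiff Topology UpperHalfPlane
open UpperHalfPlane MeasureTheory Filter Set

namespace Pool.Agent.RS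

/-- **Row GLC** (topology; short). `Matrix.SpecialLinearGroup.isClosedEmbedding_val` gives the first two;
`UpperHalfPlane.isProperMap_smul_I` the third; entries are continuous. The formulas for the actions: `coe_specialLinearGroup_apply`;
`kM θ • I = I`; every `k` with `k • I = I` is some `kM θ` (`k` = `!![a, b; -b, a]`, `a² + b² = 1`). -/
def GLC_stmt : Prop := LocallyCompactSpace SL(2, ℝ) ∧ SecondCountableTopology SL(2, ℝ) ∧
  (∀ K : Set ℍ, IsCompact K → IsCompact {g : SL(2, ℝ) | g • I ∈ K}) ∧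
  Continuous aM ∧ Continuous nM ∧ Continuous lM ∧ Continuous kM ∧
  (∀ (t : ℝ) (z : ℍ), ((aM t • z : ℍ) : ℂ) = (Real.exp t : ℂ) * z) ∧
  (∀ (x : ℝ) (z : ℍ), ((nM x • z : ℍ) : ℂ) = z + x) ∧
  (∀ (u : ℝ) (z : ℍ), ((lM u • z : ℍ) : ℂ) = z / (u * z + 1)) ∧
  (∀ s t, aM (s + t) = aM s * aM t) ∧ (∀ s t, nM (s + t) = nM s * nM t) ∧
  (∀ s t, lM (s + t) = lM s * lM t) ∧ (∀ s t, kM (s + t) = kM s * kM t) ∧
  (∀ θ, kM (θ + 2 * Real.pi) = kM θ) ∧ (∀ θ, kM θ • I = I) ∧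
  (∀ k : SL(2, ℝ), k • I = I → ∃ θ, k = kM θ) ∧
  (∀ x t, nM x * aM t = aM t * nM (Real.exp (-t) * x)) ∧
  (∀ u t, lM u * aM t = aM t * lM (Real.exp t * u)) ∧
  (∀ (t : ℝ), kM (Real.pi / 2) * aM t = aM (-t) * kM (Real.pi / 2))

/-- **Row GMG** (the measure; medium; from GLC). The map `(z, θ) ↦ toSL2R z * kM θ` is continuous (`continuous_toSL2R`), so
measurable (`ℍ × ℝ` and `SL(2, ℝ)` are second countable); `dG A` is open for `A` open, its preimage under the map is `A × ℝ`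
(`toSL2R_smul_I`), so `mG (dG A) = volume A` (the factor of the interval is `1`). Compact sets of `SL(2, ℝ)` lie in `dG K` with `K`
compact. Integral formula: `integral_map`, Fubini (the integrand is bounded and supported in a set of finite measure), `Ioc` and
interval integrals. -/
def GMG_stmt : Prop := (∀ A : Set ℍ, MeasurableSet A → MeasurableSet (dG A) ∧ mG (dG A) = volume A) ∧
  (∀ K : Set SL(2, ℝ), IsCompact K → mG K < ⊤) ∧ SigmaFinite mG ∧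
  (∀ f : SL(2, ℝ) → ENNReal, Measurable f → ∫⁻ g, f g ∂mG =
    ∫⁻ z : ℍ, (ENNReal.ofReal (2 * Real.pi))⁻¹ * ∫⁻ θ in Ioc 0 (2 * Real.pi), f (toSL2R z * kM θ)) ∧
  ∀ (E : Type) [NormedAddCommGroup E] [NormedSpace ℝ E] [CompleteSpace E] (f : SL(2, ℝ) → E)
    (A : Set ℍ), Continuous f → MeasurableSet A → (∃ K : Set ℍ, IsCompact K ∧ A ⊆ K) →
    IntegrableOn f (dG A) mG ∧ ∫ g in dG A, f g ∂mG =
      ∫ z in A, (2 * Real.pi)⁻¹ • ∫ θ in (0 : ℝ)..(2 * Real.pi), f (toSL2R z * kM θ)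

/-- **Row GLI** (left invariance; medium; from GLC, GMG). For measurable `f ≥ 0` (fourth part of GMG) and `h`: for every `z`
the element `k = (toSL2R (h•z))⁻¹ * h * toSL2R z` fixes `I`, so `k = kM α`, `h * toSL2R z * kM θ = toSL2R (h•z) * kM (α + θ)`, and the integral
over `θ` in an interval of length `2π` of a `2π`-periodic function does not change under translation
(`isAddFundamentalDomain_Ioc`, `IsAddFundamentalDomain.setLIntegral_eq`); then the invariance of `volume` on `ℍ`. -/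
def GLI_stmt : Prop := ∀ h : SL(2, ℝ), Measure.map (fun g => h * g) mG = mG

/-- **Row GRI** (right invariance; medium; from GLC, GMG, GLI). `mG` is a left Haar measure (left invariant, finite on compact sets,
positive on open sets: an open set contains `V * W` ..., or: `mG ≠ 0` and regular left invariant). Hence `map (· * h) mG = χ(h) • mG` with the modular
character `χ : SL(2, ℝ) →* ℝ≥0` (`MeasureTheory.Measure.modularCharacter`, or uniqueness of Haar measures). `aM (2 log 2)`-conjugation gives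
`nM (4x) = a * nM x * a⁻¹`, so `χ(nM x)^4 = χ(nM (4x)) = χ(nM x)` and `χ(nM x) = 1`; the same for `lM`. Every `g` is a product of
elements `nM`, `lM` (for `c = g 1 0 ≠ 0`: `g = nM ((a-1)/c) * lM c * nM ((d-1)/c)`; otherwise apply this to `lM 1 * g`). So `χ = 1`. -/
def GRI_stmt : Prop := ∀ h : SL(2, ℝ), Measure.map (fun g => g * h) mG = mG

/-- **Row GFD** (the fundamental domain of `Γ \ G`; medium; from GMG, GLI, GRI, `QU.DOB`). `dG F` is a fundamental domain for the left action of `Γ`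
on `SL(2, ℝ)` (`(γ * g) • I = γ • (g • I)`, `NiceDom.uniq`), `mG` is invariant (GLI); `dG F * h` is another one, so for invariant `u`:
`∫_{dG F} u(g h) = ∫_{dG F h} u = ∫_{dG F} u` (`IsFundamentalDomain.setIntegral_eq`; change of variables by GRI). Third part: GMG
(`(toSL2R z * kM θ) • I = z`). Fourth: `u(g • z) = u((g * toSL2R z) • I)` and the second part. -/
def GFD_stmt : Prop := ∀ (Γ : Subgroup SL(2, ℝ)) (F : Set ℍ), QU.SurfaceGroup Γ → QU.NiceDom Γ F →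
  (MeasurableSet (dG F) ∧ mG (dG F) = volume F ∧ mG (dG F) < ⊤ ∧
    ∃ K : Set SL(2, ℝ), IsCompact K ∧ dG F ⊆ K) ∧
  ∀ (E : Type) [NormedAddCommGroup E] [NormedSpace ℝ E] [CompleteSpace E],
    (∀ (u : SL(2, ℝ) → E) (h : SL(2, ℝ)), (∀ (γ : Γ) g, u ((γ : SL(2, ℝ)) * g) = u g) →
      ∫ g in dG F, u (g * h) ∂mG = ∫ g in dG F, u g ∂mG) ∧
    (∀ (v : ℍ → E), Continuous v → ∫ g in dG F, v (g • I) ∂mG = ∫ z in F, v z) ∧
    ∀ (v : ℍ → E) (z : ℍ), Continuous v → (∀ (γ : Γ) z, v (γ • z) = v z) →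
      ∫ g in dG F, v (g • z) ∂mG = ∫ w in F, v w

/-- **Row GBD** (invariant functions; short-medium; from GLC). `SL(2, ℝ) = Γ C` with the compact set `C = {g | g • I ∈ K}` (`cocompact`); so
an invariant continuous function is bounded, and it is uniformly continuous for right translations by elements near `1` (compactness of `C`,
`u (γ g h) = u (g h)`). -/
def GBD_stmt : Prop := ∀ (Γ : Subgroup SL(2, ℝ)) (E : Type) [NormedAddCommGroup E]
  (u : SL(2, ℝ) → E), QU.SurfaceGroup Γ → InvG Γ u → (∃ m : ℝ, ∀ g, ‖u g‖ ≤ m) ∧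
    ∀ ε : ℝ, 0 < ε → ∃ U ∈ 𝓝 (1 : SL(2, ℝ)), ∀ g, ∀ h ∈ U, ‖u (g * h) - u g‖ ≤ ε

/-- **Row GIP** (integration by parts; medium; from GFD, GBD). Let `w(t) = ∫_{dG F} u(g h_t) v(g h_t)`; it is constant by GFD. Its derivative at
`0` is `∫ (u' v + u v')`: `hasDerivAt_integral_of_dominated_loc_of_deriv_le`, the derivative of `t ↦ u(g h_t)` at `t` is
`u'(g h_t)` (hypothesis at `g h_t` and `h_{t+s} = h_t h_s`), bounded by GBD. -/
def GIP_stmt : Prop := ∀ (Γ : Subgroup SL(2, ℝ)) (F : Set ℍ) (h : ℝ → SL(2, ℝ))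
  (u u' v v' : SL(2, ℝ) → ℂ), QU.SurfaceGroup Γ → QU.NiceDom Γ F → Continuous h →
  (∀ s t, h (s + t) = h s * h t) → InvG Γ u → InvG Γ u' → InvG Γ v → InvG Γ v' →
  (∀ g, HasDerivAt (fun t => u (g * h t)) (u' g) 0) →
  (∀ g, HasDerivAt (fun t => v (g * h t)) (v' g) 0) →
    ∫ g in dG F, u' g * v g ∂mG = -∫ g in dG F, u g * v' g ∂mG

/-- **Row GWB** (the pairing; short-medium; from GLC, GBD). Continuity of `g ↦ ∫ f(z) φ(g z) dz`: dominated convergence (`f` has compact support, `φ` is continuous and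
the action is jointly continuous, `φ` bounded by cocompactness). Change of variables `z ↦ h⁻¹ z` (`QU.INV`). Conjugation is `integral_conj`. -/
def GWB_stmt : Prop := ∀ (Γ : Subgroup SL(2, ℝ)) (f φ : ℍ → ℂ), QU.SurfaceGroup Γ → Continuous f →
  HasCompactSupport f → InvC Γ φ → InvG Γ (Wf f φ) ∧
    (∀ g h : SL(2, ℝ), Wf f φ (g * h) = Wf (fun z => f (h⁻¹ • z)) φ g) ∧
    ∀ g, (starRingEnd ℂ) (Wf f φ g) =
      Wf (fun z => (starRingEnd ℂ) (f z)) (fun z => (starRingEnd ℂ) (φ z)) g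

/-- **Row GYN** (Young's inequality; short-medium; from GFD, GWB). `|Wf f φ g|² ≤ (∫ |f|) ∫ |f(z)| |φ(g z)|² dz` (Cauchy-Schwarz) and
`∫_{dG F} |φ(g z)|² dg = ∫_F |φ|²` for every `z` (GFD, fourth part); Fubini (everything is bounded, on sets of finite measure). -/
def GYN_stmt : Prop := ∀ (Γ : Subgroup SL(2, ℝ)) (F : Set ℍ) (f φ : ℍ → ℂ), QU.SurfaceGroup Γ →
  QU.NiceDom Γ F → Continuous f → HasCompactSupport f → InvC Γ φ →
    ∫ g in dG F, ‖Wf f φ g‖ ^ 2 ∂mG ≤ (∫ z : ℍ, ‖f z‖) ^ 2 * ∫ z in F, ‖φ z‖ ^ 2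

/-- the periodisation `z ↦ ∑_γ f(g⁻¹ γ z)` -/
noncomputable def per (Γ : Subgroup SL(2, ℝ)) (f : ℍ → ℂ) (g : SL(2, ℝ)) (z : ℍ) : ℂ :=
  ∑ᶠ γ : Γ, f (g⁻¹ • ((γ : SL(2, ℝ)) • z))

/-- the function `z ↦ ∫_{dG F} v(g) per(g, z) dg` -/
noncomputable def sy (Γ : Subgroup SL(2, ℝ)) (F : Set ℍ) (f : ℍ → ℂ) (v : SL(2, ℝ) → ℂ) (z : ℍ) : ℂ :=
  ∫ g in dG F, v g * per Γ f g z ∂mG

/-- the kernel `(g, g') ↦ ∫_F per(g, z) per(g', z) dz` -/
noncomputable def kk (Γ : Subgroup SL(2, ℝ)) (F : Set ℍ) (f : ℍ → ℂ) (g g' : SL(2, ℝ)) : ℂ :=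
  ∫ z in F, per Γ f g z * per Γ f g' z

/-- **Row GPE** (periodisation; medium; from GLC, `QU.DOB`). The number of nonzero terms in `per` is bounded, uniformly in `g`, `z`
(with `K` a ball around `I` containing the support of `f` and `K₀` the compact set of `cocompact`: write `g • I = γ₁ w`, `w ∈ K₀`; the terms are nonzero only if
`γ z` lies in `g • K`, i.e. `γ₁⁻¹ γ z ∈ ` the closed `R`-neighbourhood of `K₀`; any two such elements differ by one of the finite set of elements moving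
a compact set to itself). Locally the sum is a finite sum of continuous functions of `(g, z)`: continuity. Invariance: reindex the
sum. Unfolding: `∫_F per(g, z) u(z) dz = ∑_γ ∫_F f(g⁻¹γz) u(γ z) dz = ∫ f(g⁻¹ z) u(z) dz = Wf f u g`. Last part: unfold one factor:
`kk = ∫_ℍ f(g⁻¹ z) per(g', z) dz = ∑_γ ∫ f(z) f(g'⁻¹ γ g z) dz`. -/
def GPE_stmt : Prop := ∀ (Γ : Subgroup SL(2, ℝ)) (F : Set ℍ) (f : ℍ → ℂ), QU.SurfaceGroup Γ →
  QU.NiceDom Γ F → Continuous f → HasCompactSupport f →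
  (∃ n : ℕ, ∀ (g : SL(2, ℝ)) (z : ℍ), {γ : Γ | f (g⁻¹ • ((γ : SL(2, ℝ)) • z)) ≠ 0}.Finite ∧
    {γ : Γ | f (g⁻¹ • ((γ : SL(2, ℝ)) • z)) ≠ 0}.ncard ≤ n) ∧
  Continuous (fun p : SL(2, ℝ) × ℍ => per Γ f p.1 p.2) ∧
  (∀ (γ : Γ) (g : SL(2, ℝ)) (z : ℍ), per Γ f g (γ • z) = per Γ f g z) ∧
  (∀ (γ : Γ) (g : SL(2, ℝ)) (z : ℍ), per Γ f ((γ : SL(2, ℝ)) * g) z = per Γ f g z) ∧
  (∀ u : ℍ → ℂ, InvC Γ u → ∀ g, ∫ z in F, per Γ f g z * u z = Wf f u g) ∧
  (∃ m : ℝ, ∀ g z, ‖per Γ f g z‖ ≤ m) ∧ Continuous (fun p : SL(2, ℝ) × SL(2, ℝ) => kk Γ F f p.1 p.2)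

/-- **Row GKB** (the bound for the kernel; medium; from GPE, GLC). Unfolding gives `kk(g, g') = ∑_γ ∫_ℍ f(z) f(g'⁻¹ γ g z) dz` (a finite sum); a term is
nonzero only if `dist (γ g • I) (g' • I) ≤ 2ρ`, and the number of such `γ` is bounded by a constant `n` which depends only on `Γ`
and `ρ` (as in GPE). -/
def GKB_stmt : Prop := ∀ (Γ : Subgroup SL(2, ℝ)) (F : Set ℍ) (ρ : ℝ), QU.SurfaceGroup Γ →
  QU.NiceDom Γ F → ∃ n : ℕ, ∀ (f : ℍ → ℂ) (B : ℝ), Continuous f → HasCompactSupport f →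
    (∀ z, f z ≠ 0 → dist z I ≤ ρ) → (∀ h : SL(2, ℝ), ‖∫ z : ℍ, f z * f (h • z)‖ ≤ B) →
      ∀ g g', ‖kk Γ F f g g'‖ ≤ n * B

/-- **Row GDU** (duality; medium; from GPE, GWB). `sy(v)` is in `InvC` for bounded measurable `v`. `∫_F sy(v) u = ∫_{dG F} v(g) Wf f u (g) dg` (Fubini, GPE) and
`∫_{dG F} ∫_{dG F} v(g) kk(g, g') v'(g') = ∫_F sy(v) sy(v')`. If `∫_{dG F} |Wf f u|² ≤ κ ∫_F |u|²` for all `u` in `InvC`, then for
`w = sy(v)`: `∫_F |w|² = ∫_F w w̄ = ∫ v Wf f w̄ ≤ ‖v‖ (κ ∫_F |w|²)^{1/2}`, so `∫_F |sy(v)|² ≤ κ ∫_{dG F} |v|²`. Cauchy-Schwarz. -/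
def GDU_stmt : Prop := ∀ (Γ : Subgroup SL(2, ℝ)) (F : Set ℍ) (f : ℍ → ℂ) (κ : ℝ),
  QU.SurfaceGroup Γ → QU.NiceDom Γ F → Continuous f → HasCompactSupport f → 0 ≤ κ →
  (∀ u : ℍ → ℂ, InvC Γ u → ∫ g in dG F, ‖Wf f u g‖ ^ 2 ∂mG ≤ κ * ∫ z in F, ‖u z‖ ^ 2) →
  ∀ v v' : SL(2, ℝ) → ℂ, Measurable v → Measurable v' → (∃ m, ∀ g, ‖v g‖ ≤ m) →
    (∃ m, ∀ g, ‖v' g‖ ≤ m) →
    InvC Γ (sy Γ F f v) ∧
    (∀ u : ℍ → ℂ, InvC Γ u → ∫ z in F, sy Γ F f v z * u z = ∫ g in dG F, v g * Wf f u g ∂mG) ∧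
    (∫ g in dG F, ∫ g' in dG F, v g * kk Γ F f g g' * v' g' ∂mG ∂mG =
      ∫ z in F, sy Γ F f v z * sy Γ F f v' z) ∧
    ‖∫ g in dG F, ∫ g' in dG F, v g * kk Γ F f g g' * v' g' ∂mG ∂mG‖ ≤
      κ * Real.sqrt (∫ g in dG F, ‖v g‖ ^ 2 ∂mG) * Real.sqrt (∫ g in dG F, ‖v' g‖ ^ 2 ∂mG)

end Pool.Agent.RS
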