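import Pool.Agent.helper29.RS.SpecK
import Pool.Agent.helper62.QU.All

/-!
# Row rs:LPI (MP_07c750_an): invariance of the Laplace operator
-/

open scoped MatrixGroups ContDiff Topology UpperHalfPlane ComplexConjugate
open UpperHalfPlane MeasureTheory Filter Set

namespace Pool.Agent.RS

theorem LPI_key {Φ m m1 : ℂ → ℂ} {m2 w : ℂ} (hm : ∀ᶠ u in 𝓝 w, HasDerivAt m (m1 u) u)
    (hm1 : HasDerivAt m1 m2 w) (hΦ : ∀ᶠ u in 𝓝 (m w), DifferentiableAt ℝ Φ u)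
    (hΦ2 : DifferentiableAt ℝ (fderiv ℝ Φ) (m w)) (v : ℂ) :
    fderiv ℝ (fderiv ℝ (Φ ∘ m)) w v v =
      fderiv ℝ (fderiv ℝ Φ) (m w) (m1 w * v) (m1 w * v) + fderiv ℝ Φ (m w) (m2 * v * v) := by
  have hmw := hm.self_of_nhds
  have hmr : HasFDerivAt m (m1 w • (1 : ℂ →L[ℝ] ℂ)) w := hmw.complexToReal_fderiv
  have hm1r : HasFDerivAt m1 (m2 • (1 : ℂ →L[ℝ] ℂ)) w := hm1.complexToReal_fderiv
  have hmul : ∀ c : ℂ, c • (1 : ℂ →L[ℝ] ℂ) = ContinuousLinearMap.mul ℝ ℂ c := by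
    intro c
    ext <;> simp
  have h1 : fderiv ℝ (Φ ∘ m) =ᶠ[𝓝 w]
      fun u => (fderiv ℝ Φ (m u)).comp (ContinuousLinearMap.mul ℝ ℂ (m1 u)) := by
    filter_upwards [hm, hmw.continuousAt.eventually hΦ] with u hu hu'
    rw [← hmul]
    exact (hu'.hasFDerivAt.comp u hu.complexToReal_fderiv).fderiv
  rw [h1.fderiv_eq]
  have h2 : HasFDerivAt (fun u => fderiv ℝ Φ (m u))
      ((fderiv ℝ (fderiv ℝ Φ) (m w)).comp (m1 w • (1 : ℂ →L[ℝ] ℂ))) w :=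
    hΦ2.hasFDerivAt.comp w hmr
  have h3 : HasFDerivAt (fun u => ContinuousLinearMap.mul ℝ ℂ (m1 u))
      ((ContinuousLinearMap.mul ℝ ℂ).comp (m2 • (1 : ℂ →L[ℝ] ℂ))) w :=
    (ContinuousLinearMap.mul ℝ ℂ).hasFDerivAt.comp w hm1r
  rw [(h2.clm_comp h3).fderiv]
  simp [add_comm]

theorem LPI_quad (B : ℂ →L[ℝ] ℂ →L[ℝ] ℂ) (α : ℂ) :
    B (α * 1) (α * 1) + B (α * Complex.I) (α * Complex.I) =
      (‖α‖ ^ 2) • (B 1 1 + B Complex.I Complex.I) := by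
  have e1 : α * 1 = α.re • (1 : ℂ) + α.im • Complex.I := by
    apply Complex.ext <;> simp
  have e2 : α * Complex.I = (-α.im) • (1 : ℂ) + α.re • Complex.I := by
    apply Complex.ext <;> simp
  have e3 : ‖α‖ ^ 2 = α.re ^ 2 + α.im ^ 2 := by
    rw [← Complex.normSq_eq_norm_sq, Complex.normSq_apply]
    ring
  rw [e1, e2, e3]
  simp only [map_add, map_smul, add_apply, smul_apply]
  simp only [Complex.real_smul]
  push_cast
  ring

/-- the Moebius map -/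
noncomputable def LPI_m (g : SL(2, ℝ)) (w : ℂ) : ℂ :=
  ((g.1 0 0 : ℂ) * w + g.1 0 1) / ((g.1 1 0 : ℂ) * w + g.1 1 1)

theorem LPI_ne (g : SL(2, ℝ)) {w : ℂ} (hw : 0 < w.im) : (g.1 1 0 : ℂ) * w + g.1 1 1 ≠ 0 := by
  intro h0
  have r1 := congrArg Complex.re h0
  have r2 := congrArg Complex.im h0
  rw [Complex.add_re, Complex.re_ofReal_mul, Complex.ofReal_re, Complex.zero_re] at r1
  rw [Complex.add_im, Complex.im_ofReal_mul, Complex.ofReal_im, Complex.zero_im, add_zero] at r2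
  have hd : g.1 0 0 * g.1 1 1 - g.1 0 1 * g.1 1 0 = 1 := by
    have := g.2
    rwa [Matrix.det_fin_two] at this
  have h1 : g.1 1 0 = 0 := by
    rcases mul_eq_zero.1 r2 with h | h
    · exact h
    · exact absurd h hw.ne'
  rw [h1] at r1 hd
  have h2 : g.1 1 1 = 0 := by linarith
  rw [h2] at hd
  simp at hd

theorem LPI_d (g : SL(2, ℝ)) {w : ℂ} (hw : 0 < w.im) :
    HasDerivAt (LPI_m g) (1 / ((g.1 1 0 : ℂ) * w + g.1 1 1) ^ 2) w := by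
  have hd : (g.1 0 0 : ℂ) * g.1 1 1 - g.1 0 1 * g.1 1 0 = 1 := by
    have := g.2
    rw [Matrix.det_fin_two] at this
    exact_mod_cast this
  have hne := LPI_ne g hw
  have h1 : HasDerivAt (fun w : ℂ => (g.1 0 0 : ℂ) * w + g.1 0 1) (g.1 0 0 : ℂ) w := by
    simpa using ((hasDerivAt_id w).const_mul (g.1 0 0 : ℂ)).add_const (g.1 0 1 : ℂ)
  have h2 : HasDerivAt (fun w : ℂ => (g.1 1 0 : ℂ) * w + g.1 1 1) (g.1 1 0 : ℂ) w := by
    simpa using ((hasDerivAt_id w).const_mul (g.1 1 0 : ℂ)).add_const (g.1 1 1 : ℂ)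
  have h3 := h1.div h2 hne
  refine h3.congr_deriv ?_
  rw [div_left_inj' (pow_ne_zero 2 hne)]
  linear_combination hd

theorem LPI_d2 (g : SL(2, ℝ)) {w : ℂ} (hw : 0 < w.im) :
    HasDerivAt (fun w : ℂ => 1 / ((g.1 1 0 : ℂ) * w + g.1 1 1) ^ 2)
      (-(2 * (g.1 1 0 : ℂ)) / ((g.1 1 0 : ℂ) * w + g.1 1 1) ^ 3) w := by
  have hne := LPI_ne g hw
  have h2 : HasDerivAt (fun w : ℂ => (g.1 1 0 : ℂ) * w + g.1 1 1) (g.1 1 0 : ℂ) w := by
    simpa using ((hasDerivAt_id w).const_mul (g.1 1 0 : ℂ)).add_const (g.1 1 1 : ℂ)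
  have h3 := (h2.pow 2).inv (pow_ne_zero 2 hne)
  simp only [one_div]
  refine h3.congr_deriv ?_
  simp only [Pi.pow_apply]
  field_simp
  ring

theorem LPI_im (g : SL(2, ℝ)) (z : ℍ) : LPI_m g (z : ℂ) = ((g • z : ℍ) : ℂ) := by
  rw [coe_specialLinearGroup_apply]
  rfl

theorem LPI_onC (φ : ℍ → ℂ) (g : SL(2, ℝ)) {w : ℂ} (hw : 0 < w.im) :
    QU.onC (fun z => φ (g • z)) w = (QU.onC φ ∘ LPI_m g) w := by
  have h1 : ofComplex w = (⟨w, hw⟩ : ℍ) := ofComplex_apply_of_im_pos hw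
  have h2 := LPI_im g ⟨w, hw⟩
  change LPI_m g w = _ at h2
  unfold QU.onC
  rw [Function.comp_apply, h1, h2, ofComplex_apply]

theorem LPI_maps (g : SL(2, ℝ)) {w : ℂ} (hw : 0 < w.im) : 0 < (LPI_m g w).im := by
  have h2 := LPI_im g ⟨w, hw⟩
  change LPI_m g w = _ at h2
  rw [h2]
  exact (g • (⟨w, hw⟩ : ℍ)).im_pos

theorem LPI_nrm (g : SL(2, ℝ)) (z : ℍ) :
    z.im ^ 2 * ‖(1 : ℂ) / ((g.1 1 0 : ℂ) * (z : ℂ) + g.1 1 1) ^ 2‖ ^ 2 = (g • z).im ^ 2 := by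
  have h1 : (g • z).im = z.im / Complex.normSq ((g.1 1 0 : ℂ) * (z : ℂ) + g.1 1 1) := by
    have hd : g.1 0 0 * g.1 1 1 - g.1 0 1 * g.1 1 0 = 1 := by
      have := g.2
      rwa [Matrix.det_fin_two] at this
    have h2 : (g • z).im = (LPI_m g (z : ℂ)).im := by
      rw [LPI_im, UpperHalfPlane.coe_im]
    rw [h2, LPI_m, Complex.div_im, ← sub_div]
    congr 1
    simp only [Complex.add_im, Complex.add_re, Complex.re_ofReal_mul, Complex.im_ofReal_mul,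
      Complex.ofReal_re, Complex.ofReal_im, add_zero, UpperHalfPlane.coe_im]
    linear_combination z.im * hd
  rw [h1, norm_div, norm_one, norm_pow, Complex.normSq_eq_norm_sq]
  ring

theorem LPI : LPI_stmt := by
  intro φ g
  have hU : IsOpen {w : ℂ | 0 < w.im} := isOpen_lt continuous_const Complex.continuous_im
  refine ⟨fun n h => ?_, fun h z => ?_⟩
  · have h1 : ContDiffOn ℝ n (LPI_m g) {w : ℂ | 0 < w.im} := by
      have : ContDiffOn ℂ n (LPI_m g) {w : ℂ | 0 < w.im} := by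
        unfold LPI_m
        refine ContDiffOn.div ?_ ?_ fun w hw => LPI_ne g hw
        · fun_prop
        · fun_prop
      exact this.restrict_scalars ℝ
    refine (h.comp h1 fun w hw => LPI_maps g hw).congr fun w hw => LPI_onC φ g hw
  · have hz : 0 < (z : ℂ).im := z.im_pos
    have e1 : QU.onC (fun z => φ (g • z)) =ᶠ[𝓝 (z : ℂ)] QU.onC φ ∘ LPI_m g := by
      filter_upwards [hU.mem_nhds hz] with w hw
      exact LPI_onC φ g hw
    have e2 : fderiv ℝ (QU.onC (fun z => φ (g • z))) =ᶠ[𝓝 (z : ℂ)]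
        fderiv ℝ (QU.onC φ ∘ LPI_m g) := e1.fderiv
    have hm : ∀ᶠ u in 𝓝 (z : ℂ), HasDerivAt (LPI_m g) (1 / ((g.1 1 0 : ℂ) * u + g.1 1 1) ^ 2) u := by
      filter_upwards [hU.mem_nhds hz] with w hw
      exact LPI_d g hw
    have hgz : 0 < (LPI_m g (z : ℂ)).im := LPI_maps g hz
    have h1 : ∀ u : ℂ, 0 < u.im → ContDiffAt ℝ 2 (QU.onC φ) u := fun u hu =>
      ContDiffOn.contDiffAt h (hU.mem_nhds hu)
    have hΦ : ∀ᶠ u in 𝓝 (LPI_m g (z : ℂ)), DifferentiableAt ℝ (QU.onC φ) u := by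
      filter_upwards [hU.mem_nhds hgz] with w hw
      exact (h1 w hw).differentiableAt (by norm_num)
    have hΦ2 : DifferentiableAt ℝ (fderiv ℝ (QU.onC φ)) (LPI_m g (z : ℂ)) :=
      ((h1 _ hgz).fderiv_right (m := 1) (by norm_num)).differentiableAt (by norm_num)
    have k := LPI_key hm (LPI_d2 g hz) hΦ hΦ2
    unfold QU.lap
    rw [e2.fderiv_eq, k 1, k Complex.I, ← LPI_nrm g z, ← LPI_im g z]
    have k2 := LPI_quad (fderiv ℝ (fderiv ℝ (QU.onC φ)) (LPI_m g (z : ℂ)))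
      (1 / ((g.1 1 0 : ℂ) * (z : ℂ) + g.1 1 1) ^ 2)
    have k3 : fderiv ℝ (QU.onC φ) (LPI_m g (z : ℂ)) (-(2 * (g.1 1 0 : ℂ)) / ((g.1 1 0 : ℂ) * (z : ℂ) + g.1 1 1) ^ 3 * 1 * 1) +
        fderiv ℝ (QU.onC φ) (LPI_m g (z : ℂ)) (-(2 * (g.1 1 0 : ℂ)) / ((g.1 1 0 : ℂ) * (z : ℂ) + g.1 1 1) ^ 3 * Complex.I * Complex.I) = 0 := by
      rw [← map_add]
      have : -(2 * (g.1 1 0 : ℂ)) / ((g.1 1 0 : ℂ) * (z : ℂ) + g.1 1 1) ^ 3 * 1 * 1 +
        -(2 * (g.1 1 0 : ℂ)) / ((g.1 1 0 : ℂ) * (z : ℂ) + g.1 1 1) ^ 3 * Complex.I * Complex.I = 0 := by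
        linear_combination (-(2 * (g.1 1 0 : ℂ)) / ((g.1 1 0 : ℂ) * (z : ℂ) + g.1 1 1) ^ 3) * Complex.I_sq
      rw [this, map_zero]
    have k4 : ∀ a b c d : ℂ, (a + b) + (c + d) = (a + c) + (b + d) := fun a b c d => by ring
    rw [k4, k2, k3, add_zero, smul_smul]
    congr 1
    ring

end Pool.Agent.RS
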