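import Pool.Agent.helper62.RS.SpecG

/-!
# MP_07c750, rare scars: rows of block S (the spherical function and the Gram identity), rows `rs:X`
-/

open scoped MatrixGroups ContDiff Topology UpperHalfPlane
open UpperHalfPlane MeasureTheory Filter Set

namespace Pool.Agent.RS

/-- the wave `z ↦ Im(g z)^{1/2 + i s}` -/
noncomputable def wv (s : ℝ) (g : SL(2, ℝ)) (z : ℍ) : ℂ :=
  (((g • z).im : ℝ) : ℂ) ^ ((1 / 2 : ℂ) + (s : ℂ) * Complex.I)

/-- `f̃(θ) = ∫ f(z) Im(k_θ z)^{1/2 + i s} dz` -/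
noncomputable def ft (s : ℝ) (f : ℍ → ℂ) (θ : ℝ) : ℂ := ∫ z : ℍ, f z * wv s (kM θ) z

/-- the spherical kernel `Φ_s(z, w) = (2π)⁻¹ ∫ Im(k_θ z)^{1/2 + i s} Im(k_θ w)^{1/2 - i s} dθ` -/
noncomputable def sph (s : ℝ) (z w : ℍ) : ℂ :=
  ((2 * Real.pi)⁻¹ : ℝ) * ∫ θ in (0 : ℝ)..(2 * Real.pi),
    wv s (kM θ) z * (starRingEnd ℂ) (wv s (kM θ) w)

/-- the form `(f, f') ↦ (2π)⁻¹ ∫ f̃ conj f̃'` -/
noncomputable def gf (s : ℝ) (f f' : ℍ → ℂ) : ℂ :=
  ((2 * Real.pi)⁻¹ : ℝ) * ∫ θ in (0 : ℝ)..(2 * Real.pi), ft s f θ * (starRingEnd ℂ) (ft s f' θ)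

/-- **Row SEQ** (the Laplace operator is invariant; medium). For `g = !![a, b; c, d]` the map `w ↦ (a w + b)/(c w + d)` is holomorphic on
`{0 < im}` with derivative `(c w + d)⁻²`, and `im (g w) = im w / |c w + d|²`. Chain rule: `Δ_euc (φ ∘ g) = |g'|² (Δ_euc φ) ∘ g` (second derivatives of
a holomorphic map: `D²(φ∘g)(v,v) = D²φ(g'v, g'v) + Dφ(g'' v²)`; sum over `v = 1, I`: `v²` sums to `0`, and
`D²φ(g', g') + D²φ(i g', i g') = |g'|² (φ_xx + φ_yy)` by bilinearity and symmetry). It is enough to do it for the generators `nM`, `aM` and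
`kM (π/2)` (`z ↦ -1/z`), or for general `g` at once. -/
def SEQ_stmt : Prop := ∀ (φ : ℍ → ℂ) (g : SL(2, ℝ)), (∀ n : WithTop ℕ∞, QU.CD n φ →
    QU.CD n (fun z => φ (g • z))) ∧
  (QU.CD 2 φ → ∀ z, QU.lap (fun z => φ (g • z)) z = QU.lap φ (g • z))

/-- **Row SCV** (change of variables on the circle; medium; from GLC, GMG, GRI). Let `χ : ℍ → ℝ` be continuous with compact support and `∫ χ = 1`. The function
`U(g) = χ(g•I) f(g) / im(g•I)` is continuous with support in a set `dG K`, and `U(toSL2R z * kM θ) = χ(z) f(kM θ)` (`toSL2R z = nM (re z) * aM (log (im z))`). By GMG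
`∫ U = (2π)⁻¹ ∫ f(kM θ) dθ`. By GRI `∫ U = ∫ U(g h) dg`, and with `w = (kM θ * h) • I`: `U(toSL2R z * kM θ * h) = χ(toSL2R z • w) f(kM θ * h) / im w`
(`im (toSL2R z • w) = im z im w`), `toSL2R z • w = (x + y re w) + i y im w`, and `∫_ℍ χ(toSL2R z • w) dz = im w ∫ χ` (Lebesgue integral over the half-plane
`dx dy / y²`, substitution `x ↦ x + y re w`, `y ↦ y im w`). -/
def SCV_stmt : Prop := ∀ f : SL(2, ℝ) → ℂ, Continuous f →
  (∀ (x t : ℝ) (g : SL(2, ℝ)), f (nM x * aM t * g) = (Real.exp t : ℂ) * f g) → ∀ h : SL(2, ℝ),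
    ∫ θ in (0 : ℝ)..(2 * Real.pi), f (kM θ * h) = ∫ θ in (0 : ℝ)..(2 * Real.pi), f (kM θ)

/-- **Row SPW** (waves; medium; from GLC, SEQ, SCV). `z ↦ im(z)^{1/2+is}` is smooth with eigenvalue `1/4 + s²` (`y² ∂_y² y^a = a(a-1) y^a`,
`-a(a-1) = 1/4 + s²`), SEQ. Joint continuity. Invariance of `sph`: SCV for `f(g) = Im(g z)^{1/2+is} Im(g w)^{1/2-is}` (`(nM x * aM t * g) • z` has imaginary part
`e^t im(g z)`). Last: Fubini (`f`, `f'` continuous with compact support). -/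
def SPW_stmt : Prop := (∀ (s : ℝ) (g : SL(2, ℝ)), QU.CD ∞ (wv s g) ∧
    ∀ z, QU.lap (wv s g) z = ((1 / 4 + s ^ 2 : ℝ) : ℂ) * wv s g z) ∧
  (∀ s : ℝ, Continuous (fun p : SL(2, ℝ) × ℍ => wv s p.1 p.2)) ∧
  (∀ (s : ℝ) (g : SL(2, ℝ)) (z : ℍ), ‖wv s g z‖ = Real.sqrt (g • z).im) ∧
  (∀ (s : ℝ) (h : SL(2, ℝ)) (z w : ℍ), sph s (h • z) (h • w) = sph s z w) ∧
  (∀ (s : ℝ) (z : ℍ), sph s z I = ((2 * Real.pi)⁻¹ : ℝ) * ∫ θ in (0 : ℝ)..(2 * Real.pi), wv s (kM θ) z) ∧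
  ∀ (s : ℝ) (f f' : ℍ → ℂ), Continuous f → HasCompactSupport f → Continuous f' →
    HasCompactSupport f' → gf s f f' = ∫ z : ℍ, ∫ w : ℍ, f z * (starRingEnd ℂ) (f' w) * sph s z w

/-- **Row SPO** (the Laplace operator in polar coordinates; medium; from GLC, SEQ). `v` of class `C²`; `p(t, θ) = v(kM θ • aM t • I)` is `C²` on `ℝ²`. Claim:
`p_tt + coth t · p_t + p_θθ/(4 sinh² t) = -(lap v)(kM θ • aM t • I)` for `t ≠ 0`. By SEQ (replace `v` by `v ∘ kM θ₀`) it is enough to take `θ = 0`. With `y = e^t`, `z = iy`: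
`p_t = y v_y`, `p_tt = y² v_yy + y v_y`; `kM θ • z = (cos θ z + sin θ)/(-sin θ z + cos θ)` has first and second derivatives `1 + z² = 1 - y²`, `2z(1+z²) = 2iy(1-y²)` at
`θ = 0`, so `p_θθ = (1-y²)² v_xx + 2y(1-y²) v_y`; `4 sinh² t = (y²-1)²/y²`, `coth t = (y²+1)/(y²-1)`. The sum is `y²(v_xx + v_yy)`. -/
def SPO_stmt : Prop := ∀ v : ℍ → ℂ, QU.CD 2 v →
  ContDiff ℝ 2 (fun q : ℝ × ℝ => v (kM q.2 • aM q.1 • I)) ∧
  ∀ t θ : ℝ, 0 < t → iteratedDeriv 2 (fun t' => v (kM θ • aM t' • I)) t +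
    (Real.cosh t / Real.sinh t : ℝ) * deriv (fun t' => v (kM θ • aM t' • I)) t +
    ((4 * Real.sinh t ^ 2)⁻¹ : ℝ) * iteratedDeriv 2 (fun θ' => v (kM θ' • aM t • I)) θ =
      -QU.lap v (kM θ • aM t • I)

/-- **Row SOD** (uniqueness of the radial solution; short-medium). `E(t) = |W'|² + μ|W|²` (real and imaginary parts separately): `E' = 2 Re(conj W' (W'' + μ W)) = -2 coth t |W'|² ≤ 0` on
`(0, ∞)`, `E(0) = 0`, `E ≥ 0` and `E` is continuous on `[0, ∞)`: `W' = 0`, `W` is constant, `W = W(0) = 0`. -/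
def SOD_stmt : Prop := ∀ (μ : ℝ) (W : ℝ → ℂ), 0 ≤ μ → ContDiff ℝ 2 W → W 0 = 0 → deriv W 0 = 0 →
  (∀ t : ℝ, 0 < t → iteratedDeriv 2 W t + (Real.cosh t / Real.sinh t : ℝ) * deriv W t + μ * W t = 0) →
    ∀ t : ℝ, 0 ≤ t → W t = 0

/-- **Row SMV** (mean value property; medium; from GLC, SPO, SOD, SPW). For an eigenfunction `v` of class `C²` put `U_v(t) = ∫_0^{2π} v(kM θ • aM t • I) dθ`: it is `C²` (parametric integral of a `C²` function over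
a compact interval), by SPO integrated over `θ` (the integral of the `θθ` derivative of a `2π`-periodic smooth function is `0`) `U_v'' + coth t U_v' + μ U_v = 0`
for `t > 0`, `U_v(0) = 2π v(I)`, `U_v` is even (`kM (π/2) * aM t = aM (-t) * kM (π/2)`, translation of `θ` by `π/2`), so `U_v'(0) = 0`. Apply SOD to
`W = U_v - v(I) U_1`, where `U_1` belongs to the wave `wv s 1` (`wv s 1 I = 1`). -/
def SMV_stmt : Prop := ∀ (s : ℝ) (v : ℍ → ℂ), QU.CD 2 v →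
  (∀ z, QU.lap v z = ((1 / 4 + s ^ 2 : ℝ) : ℂ) * v z) → ∀ t : ℝ,
    ∫ θ in (0 : ℝ)..(2 * Real.pi), v (kM θ • aM t • I) =
      v I * ∫ θ in (0 : ℝ)..(2 * Real.pi), wv s (kM θ) (aM t • I)

/-- **Row SCA** (Cartan decomposition; short; from GLC). Every `z` is `kM θ • aM t • I` with `t ≥ 0`: by continuity of `θ ↦` the real part of `kM θ • z`
(it changes sign between `θ` and `θ + π/2`: `kM (π/2) • z = -1/z`) there is `θ` with `kM θ • z` on the imaginary axis; if the point is below `I` apply `kM (π/2)`. -/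
def SCA_stmt : Prop := ∀ z : ℍ, ∃ θ t : ℝ, 0 ≤ t ∧ z = kM θ • aM t • I

/-- **Row SGR** (the Gram identity; medium-long; from GLC, GFD, GBD, GWB, SEQ, SMV, SCA, SPW). (1) `∫_{dG F} φ(g z) conj(u(g w)) dg = sph s z w ∫_F φ conj u`: let
`w = h • I`; by GFD (translation by `h⁻¹`) the left side is the same for `h⁻¹z`, `I`, and so is `sph`. Let `z = kM α • aM t • I` (SCA). Translation by `kM θ` (`kM θ • I = I`):
`∫ φ(g z) conj(u(g I)) = ∫ φ(g kM θ kM α aM t I) conj(u(g I))` for all `θ`; average over `θ` and use Fubini and SMV for `v = φ ∘ g` (SEQ):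
`= [(2π)⁻¹∫ wv s (kM θ) (aM t I) dθ] ∫ φ(g I) conj(u(g I)) dg`. And `sph s (kM α • aM t • I) I = sph s (aM t • I) I`. (2) Insert and use Fubini (`f`, `f'` have compact
support, everything is bounded) and the last part of SPW. -/
def SGR_stmt : Prop := ∀ (Γ : Subgroup SL(2, ℝ)) (F : Set ℍ) (s : ℝ) (φ u : ℍ → ℂ),
  QU.SurfaceGroup Γ → QU.NiceDom Γ F → QU.CD 2 φ → (∀ (γ : Γ) (z : ℍ), φ (γ • z) = φ z) →
  (∀ z, QU.lap φ z = ((1 / 4 + s ^ 2 : ℝ) : ℂ) * φ z) → InvC Γ u →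
  (∀ z w : ℍ, ∫ g in dG F, φ (g • z) * (starRingEnd ℂ) (u (g • w)) ∂mG =
    sph s z w * ∫ z in F, φ z * (starRingEnd ℂ) (u z)) ∧
  ∀ f f' : ℍ → ℂ, Continuous f → HasCompactSupport f → Continuous f' → HasCompactSupport f' →
    ∫ g in dG F, Wf f φ g * (starRingEnd ℂ) (Wf f' u g) ∂mG =
      gf s f f' * ∫ z in F, φ z * (starRingEnd ℂ) (u z)

end Pool.Agent.RS
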