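import Mathlib

/-!
# MP_07c750, rare scars: rows of block T (the three lines argument, abstract), rows `rs:X`
-/

open MeasureTheory Filter Set

namespace Pool.Agent.RS

/-- bounded measurable functions -/
def BM {X : Type} [MeasurableSpace X] {E : Type} [NormedAddCommGroup E] [MeasurableSpace E]
    (u : X → E) : Prop := Measurable u ∧ ∃ m : ℝ, ∀ x, ‖u x‖ ≤ m

/-- The data of the three lines argument: a kernel `K` with `|K| ≤ k₀` on a finite measure space, whose bilinear form is bounded by `κ ‖u‖ ‖v‖`, and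
two orthogonal families `a_j`, `b_j` of square norms `κ A_j`, `A_j ≤ 1`, which `K` maps to each other. -/
structure TD {X : Type} [MeasurableSpace X] (μ : Measure X) (N : ℕ) (K : X → X → ℂ)
    (a b : Fin N → X → ℂ) (A : Fin N → ℝ) (κ k₀ : ℝ) : Prop where
  posκ : 0 < κ
  posk : 0 ≤ k₀
  measK : Measurable (Function.uncurry K)
  boundK : ∀ x y, ‖K x y‖ ≤ k₀
  bma : ∀ j, BM (a j)
  bmb : ∀ j, BM (b j)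
  nonneg : ∀ j, 0 ≤ A j
  le_one : ∀ j, A j ≤ 1
  op : ∀ u v : X → ℂ, BM u → BM v → ‖∫ x, ∫ y, u x * K x y * v y ∂μ ∂μ‖ ≤
    κ * Real.sqrt (∫ x, ‖u x‖ ^ 2 ∂μ) * Real.sqrt (∫ x, ‖v x‖ ^ 2 ∂μ)
  ortha : ∀ i j, ∫ x, a i x * (starRingEnd ℂ) (a j x) ∂μ = if i = j then ((κ * A j : ℝ) : ℂ) else 0
  orthb : ∀ i j, ∫ x, b i x * (starRingEnd ℂ) (b j x) ∂μ = if i = j then ((κ * A j : ℝ) : ℂ) else 0
  actb : ∀ (j : Fin N) (u : X → ℂ), BM u →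
    ∫ x, ∫ y, u x * K x y * b j y ∂μ ∂μ = ((κ * A j : ℝ) : ℂ) * ∫ x, u x * a j x ∂μ
  acta : ∀ (j : Fin N) (v : X → ℂ), BM v →
    ∫ x, ∫ y, (starRingEnd ℂ) (a j x) * K x y * v y ∂μ ∂μ =
      ((κ * A j : ℝ) : ℂ) * ∫ y, (starRingEnd ℂ) (b j y) * v y ∂μ

/-- the function of the three lines argument -/
noncomputable def TF {X : Type} [MeasurableSpace X] (μ : Measure X) {N : ℕ} (K : X → X → ℂ)
    (a b : Fin N → X → ℂ) (Φ : X → ℝ) (ζ : ℂ) : ℂ :=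
  ∑ j, ∫ x, ∫ y, (Complex.exp (ζ * Φ x) * (starRingEnd ℂ) (a j x)) * K x y *
    (Complex.exp (ζ * Φ y) * b j y) ∂μ ∂μ

/-- **Row TH1** (`TF` is entire; medium). Differentiation under the integral sign (everything is bounded, the measure is finite; write the iterated
integral as an integral over `μ.prod μ`, the exponential is `exp(ζ (Φ x + Φ y))`; `hasDerivAt_integral_of_dominated_loc_of_deriv_le`). The two derivatives have the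
factors `(Φ x + Φ y)`, `(Φ x + Φ y)²`, both are continuous in `ζ`. -/
def TH1_stmt : Prop := ∀ (X : Type) [MeasurableSpace X] (μ : Measure X) [IsFiniteMeasure μ] (N : ℕ)
  (K : X → X → ℂ) (a b : Fin N → X → ℂ) (A : Fin N → ℝ) (κ k₀ : ℝ) (Φ : X → ℝ),
  TD μ N K a b A κ k₀ → BM Φ →
  ∃ F1 F2 : ℂ → ℂ, (∀ ζ, HasDerivAt (TF μ K a b Φ) (F1 ζ) ζ) ∧ (∀ ζ, HasDerivAt F1 (F2 ζ) ζ) ∧
    (∀ ζ, F1 ζ = ∑ j, ∫ x, ∫ y, ((Φ x + Φ y : ℝ) : ℂ) * ((Complex.exp (ζ * Φ x) *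
      (starRingEnd ℂ) (a j x)) * K x y * (Complex.exp (ζ * Φ y) * b j y)) ∂μ ∂μ) ∧
    (∀ ζ, F2 ζ = ∑ j, ∫ x, ∫ y, ((Φ x + Φ y : ℝ) : ℂ) ^ 2 * ((Complex.exp (ζ * Φ x) *
      (starRingEnd ℂ) (a j x)) * K x y * (Complex.exp (ζ * Φ y) * b j y)) ∂μ ∂μ) ∧
    ∀ R : ℝ, ∃ m : ℝ, ∀ ζ : ℂ, |ζ.re| ≤ R → ‖TF μ K a b Φ ζ‖ ≤ m

/-- **Row TH2** (the line `Re ζ = 0` and the values at `0`; short-medium; from TH1). By `op` and `ortha`, `orthb` each term is at most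
`κ √(κ A_j) √(κ A_j)`. At `ζ = 0` by `actb` with `u = conj (a j)`: `∑ κ A_j · κ A_j`. `F1 0`: split `Φ x + Φ y`; `actb` with `u = Φ conj(a j)` gives
`κ A_j ∫ Φ |a_j|²`, `acta` with `v = Φ b_j` gives `κ A_j ∫ Φ |b_j|²`. `F2 x` for real `0 ≤ x ≤ 1/2`: `(Φ x + Φ y)² = Φ x² + 2 Φ x Φ y + Φ y²`, each of the
terms is bounded by `op` by `κ L² e^{2xL} κ A_j`. -/
def TH2_stmt : Prop := ∀ (X : Type) [MeasurableSpace X] (μ : Measure X) [IsFiniteMeasure μ] (N : ℕ)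
  (K : X → X → ℂ) (a b : Fin N → X → ℂ) (A : Fin N → ℝ) (κ k₀ : ℝ) (Φ : X → ℝ) (L : ℝ)
  (F1 F2 : ℂ → ℂ), TD μ N K a b A κ k₀ → BM Φ → (∀ x, |Φ x| ≤ L) →
  (∀ ζ, F1 ζ = ∑ j, ∫ x, ∫ y, ((Φ x + Φ y : ℝ) : ℂ) * ((Complex.exp (ζ * Φ x) *
      (starRingEnd ℂ) (a j x)) * K x y * (Complex.exp (ζ * Φ y) * b j y)) ∂μ ∂μ) →
  (∀ ζ, F2 ζ = ∑ j, ∫ x, ∫ y, ((Φ x + Φ y : ℝ) : ℂ) ^ 2 * ((Complex.exp (ζ * Φ x) *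
      (starRingEnd ℂ) (a j x)) * K x y * (Complex.exp (ζ * Φ y) * b j y)) ∂μ ∂μ) →
  (∀ ζ : ℂ, ζ.re = 0 → ‖TF μ K a b Φ ζ‖ ≤ N * κ ^ 2) ∧
  TF μ K a b Φ 0 = ((κ ^ 2 * ∑ j, A j ^ 2 : ℝ) : ℂ) ∧
  F1 0 = ((κ * ∑ j, A j * ((∫ x, Φ x * ‖a j x‖ ^ 2 ∂μ) + ∫ x, Φ x * ‖b j x‖ ^ 2 ∂μ) : ℝ) : ℂ) ∧
  ∀ x : ℝ, 0 ≤ x → ‖F2 x‖ ≤ N * κ ^ 2 * (4 * L ^ 2 * Real.exp (2 * x * L))

/-- **Row TH3** (the line `Re ζ = 1/2`; medium). With `ã_j = e^{-iτΦ} a_j`, `b̃_j = e^{iτΦ} b_j` (the same orthogonality relations) the value is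
`∫∫ e^{(Φ x + Φ y)/2} K(x,y) S(x,y)`, `S = ∑_j conj(ã_j(x)) b̃_j(y)`. Cauchy-Schwarz on `μ.prod μ`: `∫∫ |S|² = ∑_{ij} (∫ ã_i conj ã_j)(∫ b̃_j conj b̃_i) =
∑_j κ² A_j² ≤ N κ²` and `∫∫ e^{Φ x + Φ y} |K|² ≤ k₀² (∫ e^Φ)²`. -/
def TH3_stmt : Prop := ∀ (X : Type) [MeasurableSpace X] (μ : Measure X) [IsFiniteMeasure μ] (N : ℕ)
  (K : X → X → ℂ) (a b : Fin N → X → ℂ) (A : Fin N → ℝ) (κ k₀ : ℝ) (Φ : X → ℝ),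
  TD μ N K a b A κ k₀ → BM Φ → ∀ ζ : ℂ, ζ.re = 1 / 2 →
    ‖TF μ K a b Φ ζ‖ ≤ Real.sqrt N * κ * k₀ * ∫ x, Real.exp (Φ x) ∂μ

/-- **Row TH4** (three lines; medium; from TH1, TH2, TH3). `Complex.HadamardThreeLines` on the strip `0 < Re < 1/2` (or for `TF(ζ/2)` on
`0 < Re < 1`): `‖TF x‖ ≤ (N κ²)^{1-2x} (√N κ k₀ Z)^{2x} = N κ² (k₀ Z / (κ √N))^{2x}`, `Z = ∫ e^Φ`. Taylor at `0`:
`Re TF x ≥ κ² ∑ A_j² + x F1(0) - x²/2 sup ‖F2‖`. Divide by `N κ²`. (`N ≥ 1`; `k₀ Z > 0` may be assumed, or replace `k₀` by `k₀ + t`, `t → 0`; here `k₀ > 0` is assumed.) -/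
def TH4_stmt : Prop := ∀ (X : Type) [MeasurableSpace X] (μ : Measure X) [IsFiniteMeasure μ] (N : ℕ)
  (K : X → X → ℂ) (a b : Fin N → X → ℂ) (A : Fin N → ℝ) (κ k₀ : ℝ) (Φ : X → ℝ) (L : ℝ),
  TD μ N K a b A κ k₀ → BM Φ → (∀ x, |Φ x| ≤ L) → 1 ≤ N → 0 < k₀ → 0 < (μ Set.univ).toReal →
  ∀ x : ℝ, 0 ≤ x → x ≤ 1 / 2 →
    (∑ j, A j ^ 2) / N + x * ((∑ j, A j * ((∫ x, Φ x * ‖a j x‖ ^ 2 ∂μ) +
      ∫ x, Φ x * ‖b j x‖ ^ 2 ∂μ)) / (N * κ)) - 2 * L ^ 2 * Real.exp (2 * x * L) * x ^ 2 ≤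
      Real.exp (x * (2 * Real.log (k₀ / κ) + 2 * Real.log (∫ x, Real.exp (Φ x) ∂μ) - Real.log N))

end Pool.Agent.RS
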