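import Pool.Agent.helper62.RS.FDefs
import Pool.Agent.helper62.RS.SpecT
import Pool.Agent.helper62.RS.SpecS
import Pool.Agent.helper29.RS.SpecK
import Pool.Agent.helper98.RS.SpecV

/-!
# MP_07c750, rare scars: rows of block E (assembly), rows `rs:X`
-/

open scoped MatrixGroups ContDiff Topology UpperHalfPlane ComplexConjugate
open UpperHalfPlane MeasureTheory Filter Set

namespace Pool.Agent.RS

/-- **Row EKB** (the bound of the kernel; short; from GKB, FL0). `n` from GKB for `ρ = 1` (`c z ≠ 0`, `TB (1/4) c` gives `dist z I ≤ 1`: `z = x + iy`, `|x| ≤ 1/4`, `|log y| ≤ 1/4`,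
`dist z I ≤ dist z (iy) + dist (iy) I`, or `cosh dist - 1 = tt z I = (x² + (y-1)²)/(2y)`). Hypothesis for `g = 1`, `g' = h⁻¹`. -/
def EKB_stmt : Prop := ∀ (Γ : Subgroup SL(2, ℝ)) (F : Set ℍ), QU.SurfaceGroup Γ → QU.NiceDom Γ F →
  ∃ n : ℕ, 1 ≤ n ∧ ∀ (c : ℍ → ℂ) (r B : ℝ), TB (1 / 4) c →
    (∀ g g' : SL(2, ℝ), ‖∫ z : ℍ, pk r c (g⁻¹ • z) * pk r c (g'⁻¹ • z)‖ ≤ B) →
      ∀ g g', ‖kk Γ F (pk r c) g g'‖ ≤ n * B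

/-- **Row ETD** (the data for the three lines argument; medium-long; from GWB, GBD, GFD, GPE, GDU, GR2, FL0). `e = pk r c`, `μ = mG.restrict (dG F)`. Measurability and bounds: all functions are
continuous, `Wf e φ` is bounded (GWB, GBD; `φ_j` and `conj φ_j` are in `InvC` and are eigenfunctions), `kk` is continuous (GPE) and bounded by `k₀`. Conjugate everything: `∫∫ u conj(kk) v = conj ∫∫ conj(u) kk conj(v)`, so `op` is the last part of GDU. `ortha`, `orthb`: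
GR2 with `u = φ_j` resp. the conjugates (`∫ Wf e φ_i conj(Wf e φ_j) = δ_ij bk (cc c) r s_i`); `A_j = bk (cc c) r (s_j) / κ ≤ 1` by the frame bound for `φ_j`, `qn F c r φ_j = bk`. `actb`: `∫∫ conj(u) kk conj(b_j) = ∫_F sy(conj u) sy(conj b_j)` (GDU), which by GDU (second part for
`v = conj b_j` and the function `sy(conj u)` of `InvC`) is `∫_{dG F} conj(Wf e φ_j) Wf e (sy(conj u)) = conj ∫ Wf e φ_j conj(Wf e (sy(conj u)))= bk · ∫_F conj(φ_j) sy(conj u)` (GR2) `= bk · ∫_{dG F} conj(u) Wf e (conj φ_j)` (GDU again); conjugate. `acta` in the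
same way with `φ_j` and `conj φ_j` exchanged (`a_j = conj(Wf e (conj φ_j))`) and `kk` symmetric. -/
def ETD_stmt : Prop := ∀ (Γ : Subgroup SL(2, ℝ)) (F : Set ℍ) (c : ℍ → ℂ) (r κ k₀ : ℝ) (N : ℕ)
  (s : Fin N → ℝ) (φ : Fin N → ℍ → ℂ), QU.SurfaceGroup Γ → QU.NiceDom Γ F → TB (1 / 4) c →
  0 < κ → 0 ≤ k₀ → (∀ u : ℍ → ℂ, InvC Γ u → qn F c r u ≤ κ * nn F u) →
  (∀ g g', ‖kk Γ F (pk r c) g g'‖ ≤ k₀) → (∀ j, EigL Γ (1 / 4 + s j ^ 2) (φ j)) →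
  (∀ i j, ∫ z in F, φ i z * conj (φ j z) = if i = j then 1 else 0) →
    TD (mG.restrict (dG F)) N (fun g g' => conj (kk Γ F (pk r c) g g'))
      (fun j g => conj (Wf (pk r c) (fun z => conj (φ j z)) g)) (fun j g => Wf (pk r c) (φ j) g)
      (fun j => qn F c r (φ j) / κ) κ k₀

/-- **Row EIN** (the inequality at frequency `r`; medium; from ETD, TH4, GFD, GBD, GWB). TH4 for `Φ(g) = -λ ∫_0^T V((g * aM t) • I) dt`, `|Φ| ≤ L = λ T`. `A_j = qn F c r φ_j / κ ∈ [1-η, 1]` (`nn F φ_j = 1`).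
`∫ Φ |b_j|² = -λ ∫_0^T iR F (V((g * aM t) • I) |Wf e φ_j|²) dt ≥ -λ T κ (∫_F V |φ_j|² + η)` (Fubini on `[0,T] × dG F`, continuous bounded integrand), and the same for `a_j`: `|a_j| = |Wf e (conj φ_j)|`, `conj φ_j` is an eigenfunction with the same `V`-mass. The sum over `j` of `A_j` times these numbers, `0 ≤ A_j ≤ 1`. -/
def EIN_stmt : Prop := ∀ (Γ : Subgroup SL(2, ℝ)) (F : Set ℍ) (V : ℍ → ℝ) (c : ℍ → ℂ)
  (r κ k₀ η lam T : ℝ) (N : ℕ) (s : Fin N → ℝ) (φ : Fin N → ℍ → ℂ), QU.SurfaceGroup Γ → QU.NiceDom Γ F →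
  QU.Inv Γ V → (∀ z, 0 ≤ V z ∧ V z ≤ 1) → TB (1 / 4) c → 0 < κ → 0 < k₀ → 0 ≤ η → η ≤ 1 → 0 ≤ lam → 0 ≤ T →
  1 ≤ N → (∀ u : ℍ → ℂ, InvC Γ u → qn F c r u ≤ κ * nn F u) → (∀ g g', ‖kk Γ F (pk r c) g g'‖ ≤ k₀) →
  (∀ (s : ℝ) (ψ : ℍ → ℂ), |s - r| ≤ 1 → EigL Γ (1 / 4 + s ^ 2) ψ → (1 - η) * κ * nn F ψ ≤ qn F c r ψ ∧
    ∀ t : ℝ, 0 ≤ t → t ≤ T → iR F (fun g => V ((g * aM t) • I) * ‖Wf (pk r c) ψ g‖ ^ 2) ≤
      κ * ((∫ z in F, V z * ‖ψ z‖ ^ 2) + η * nn F ψ)) →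
  EFam Γ F r N s φ → ∀ x : ℝ, 0 ≤ x → x ≤ 1 / 2 →
    (1 - η) ^ 2 - 2 * x * lam * T * ((∑ j, ∫ z in F, V z * ‖φ j z‖ ^ 2) / N + η) -
      2 * (lam * T) ^ 2 * Real.exp (2 * x * (lam * T)) * x ^ 2 ≤
      Real.exp (x * (2 * Real.log (k₀ / κ) + 2 * Real.log (iR F (fun g =>
        Real.exp (-lam * ∫ t in (0 : ℝ)..T, V ((g * aM t) • I)))) - Real.log N))

/-- **Row ENM** (numbers; short-medium; Mathlib only). `x = δ/(lam T)`, `y = 2η + 2δ(m + η) + 2 e δ² ≤ 1/2` (`(1-η)² ≥ 1 - 2η`, `e^{2δ} ≤ e`); the hypothesis gives `1 - y ≤ exp (δ β/(lam T))`, so `δ β/(lam T) ≥ log(1-y) ≥ -y - y²`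
and `-β/(lam T) ≤ (y + y²)/δ ≤ 2m + 2η/δ + 2η + 2eδ + y²/δ`, `y ≤ 2δ + 4η/δ·δ ...`; with `η = δ²`, `m ≤ 1`: `y ≤ 12 δ`, so `-β/(lam T) ≤ 2m + 200 δ`. -/
def ENM_stmt : Prop := ∀ δ m lam T β : ℝ, 0 < δ → δ ≤ 1 / 24 → 0 ≤ m → m ≤ 1 → 0 < lam → 0 < T → δ / (lam * T) ≤ 1 / 2 →
  (∀ x : ℝ, 0 ≤ x → x ≤ 1 / 2 → (1 - δ ^ 2) ^ 2 - 2 * x * lam * T * (m + δ ^ 2) -
      2 * (lam * T) ^ 2 * Real.exp (2 * x * (lam * T)) * x ^ 2 ≤ Real.exp (x * β)) →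
    -(200 * δ) - 2 * m ≤ β / (lam * T)

/-- **Row EP1** (smooth functions with values in `[0,1]`; medium; from PKT, EKB, EIN, ENM, GFD, GBD). Let `δ` be small (`200 δ lam ≤ ε`, `δ ≤ 1/24`), apply PKT with `η = δ²` (`≤ 1/4`): `c, A, K`; `κ = A/r`, `k₀ = n K/√r` (EKB; so `2 log(k₀/κ) = log r + C₁`), `T = log(r/K)` (`exp t ≤ r/K` for `t ≤ T`). `r` large: `T ≥ T₀`, `T ≥ 1`,
`δ/(lam T) ≤ 1/2`. EIN and ENM with `m = avg ≤ 1`, `β = log r + C₁ + 2 log Z - log N`, `log Z ≤ -qT` (`Z > 0`): `2 lam m ≥ -β/T - 200 δ lam ≥ 2q - (log r - log N + C₁)/T - ε`. Finally `(log r - log N)/T ≤ (log r - log N)/log r + ε'`: if `log N ≤ log r` as `T = log r - log K`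
(`K ≥ 1` may be assumed) and `(log r - log N) ≤ log r`; if `log N > log r` the left side is `≤ (log r - log N)/log r`. -/
def EP1_stmt : Prop := ∀ (Γ : Subgroup SL(2, ℝ)) (F : Set ℍ) (V : ℍ → ℝ) (lam q : ℝ), QU.SurfaceGroup Γ →
  QU.NiceDom Γ F → QU.Inv Γ V → QU.CD 2 V → (∀ z, 0 ≤ V z ∧ V z ≤ 1) → 0 < lam →
  (∃ T₀ : ℝ, ∀ T, T₀ ≤ T → iR F (fun g => Real.exp (-lam * ∫ t in (0 : ℝ)..T, V ((g * aM t) • I))) ≤
    Real.exp (-q * T)) →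
  ∀ ε : ℝ, 0 < ε → ∃ r₀ : ℝ, 1 < r₀ ∧ ∀ (r : ℝ) (N : ℕ) (s : Fin N → ℝ) (φ : Fin N → ℍ → ℂ), r₀ ≤ r → 1 ≤ N →
    EFam Γ F r N s φ → q - (1 / 2) * (1 - Real.log N / Real.log r) - ε ≤
      lam * ((∑ j, ∫ z in F, V z * ‖φ j z‖ ^ 2) / N)

/-- **Row ESM** (smoothing; short-medium; QU.A_CVS, QU.A_APX, QU.A_KFM, QU.A_CVB, QU.A_BDD, QU.A_EQV). `h' = conv (fam η) h` for small `η`: within `ε` of `h` (`h` is uniformly continuous by BDD), `CD 2` by CVS, in `Inv` by CVB. The mass of `fam η` is `1` and it is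
nonnegative, so `h' ≤ sup h`, `h' ≥ inf h`. -/
def ESM_stmt : Prop := ∀ (Γ : Subgroup SL(2, ℝ)) (h : ℍ → ℝ) (a b ε : ℝ), QU.SurfaceGroup Γ → QU.Inv Γ h → (∀ z, a ≤ h z ∧ h z ≤ b) → 0 < ε →
  ∃ h' : ℍ → ℝ, QU.Inv Γ h' ∧ QU.CD 2 h' ∧ (∀ z, |h' z - h z| ≤ ε) ∧ ∀ z, a ≤ h' z ∧ h' z ≤ b

/-- **Row EP2** (continuous functions; medium; from EP1, ESM, GFD, GBD, QU.A_BDD). Let `|h| ≤ m₀`, `lam = 2 m₀ + 1`, `h'` from ESM within `ε/8` of `h`, `|h'| ≤ m₀`, `V = (m₀ - h')/lam`. Then `h' = m₀ - lam V`, `exp(-lam ∫V) = exp(∫ h' - m₀ T) ≤ exp((p + ε/8 - m₀) T)` integrated, so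
`q = m₀ - p - ε/8`. EP1 with `ε/8`: `m₀ - avg h' ≥ m₀ - p - ε/8 - (1/2)(1 - log N/log r) - ε/8` (`∫_F |φ_j|² = 1`), and `avg h ≤ avg h' + ε/8`. (All integrands are continuous and bounded on `F`, `dG F`, which have finite measure and are relatively compact.) -/
def EP2_stmt : Prop := ∀ (Γ : Subgroup SL(2, ℝ)) (F : Set ℍ) (h : ℍ → ℝ) (p : ℝ), QU.SurfaceGroup Γ →
  QU.NiceDom Γ F → QU.Inv Γ h →
  (∃ T₀ : ℝ, ∀ T, T₀ ≤ T → iR F (fun g => Real.exp (∫ t in (0 : ℝ)..T, h ((g * aM t) • I))) ≤ Real.exp (p * T)) →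
  ∀ ε : ℝ, 0 < ε → ∃ r₀ : ℝ, 1 < r₀ ∧ ∀ (r : ℝ) (N : ℕ) (s : Fin N → ℝ) (φ : Fin N → ℍ → ℂ), r₀ ≤ r → 1 ≤ N →
    EFam Γ F r N s φ → (∑ j, ∫ z in F, h z * ‖φ j z‖ ^ 2) / N ≤
      p + (1 / 2) * (1 - Real.log N / Real.log r) + ε

/-- **Row EGE** (geodesics; short-medium; from GLC, SCA). Move `c 0` to `I` (`toSL2R`) and rotate `c 1` to the imaginary axis (SCA: `c 1 = kM θ • aM t • I`, `t ≥ 0`; `dist = 1` gives `t = 1`). For `z = x + iy` with `dist z I = |t|`, `dist z (i e) = |t - 1|`: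
`x² + y² + 1 = 2 y cosh t`, `x² + y² + e² = 2 y e cosh(t-1)` (`QU.tt`, `UpperHalfPlane.cosh_dist`), subtract: `y = e^t`, then `x = 0`. -/
def EGE_stmt : Prop := ∀ c : ℝ → ℍ, (∀ t t' : ℝ, dist (c t) (c t') = |t - t'|) →
  ∃ g : SL(2, ℝ), ∀ t, c t = (g * aM t) • I

/-- **Row ESC** (scars; medium; from EP2, EGE, VOL, GFD). `g₀` from EGE, `CG Γ g₀`; VOL with `δ' = ε/8` (its hypothesis on `iR` is GFD): `w`, `u`, `C`. `h = u - 1`: `∫ exp(∫_0^T h) = e^{-T} ∫ exp ∫ u ≤ C e^{-(1-δ')T} ≤ e^{-(1-2δ')T}` for large `T`, `p = -(1 - 2δ')`. EP2 with `ε/8`: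
`σ - 1 ≤ avg ∫ (u-1)|φ_j|² ≤ -1 + 2δ' + (1/2)(1 - log N/log r) + ε/8` since `u = 1` on the `w`-thickening of `geo`, which is `Tube Γ c w` (`dist (γ • z) (c t) = dist z (γ⁻¹ • c t)`), and `0 ≤ u`, `∫|φ_j|² = 1`. So `log N/log r ≤ 1 - 2σ + ε`. (`N = 0` is trivial.) -/
def ESC_stmt : Prop := ∀ (Γ : Subgroup SL(2, ℝ)) (F : Set ℍ) (c : ℝ → ℍ), QU.SurfaceGroup Γ → QU.NiceDom Γ F →
  ClosedGeo Γ c → ∀ ε : ℝ, 0 < ε → ∃ δ r₀ : ℝ, 0 < δ ∧ 1 < r₀ ∧ ∀ (σ r : ℝ) (N : ℕ) (s : Fin N → ℝ) (φ : Fin N → ℍ → ℂ),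
    r₀ ≤ r → EFam Γ F r N s φ → (∀ j, σ ≤ ∫ z in F ∩ Tube Γ c δ, ‖φ j z‖ ^ 2) →
      (N : ℝ) ≤ r ^ (1 - 2 * σ + ε)

/-- **Row EFD** (any fundamental domain; medium; from EP2, ESC, GMG, GFD, QU.A_DOM, QU.A_DOB). `F₀` nice (DOM). Integrals over `F` and `F₀` of invariant functions agree (DOB, `IsFundamentalDomain.setIntegral_eq`), for `F ∩ Tube` use the indicator of the invariant set `Tube`. The integral over `dG F₀` in the coordinates of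
GMG: `(toSL2R z * kM θ * aM t) • I = gd z θ t`; its factor `(2π)⁻¹` only makes it smaller; the inner integral over `θ` is an invariant function of `z` (the group `Γ` changes `θ` by a translation) -- or: extend the statement of GMG to `F` by `iR` invariance: the function
`z ↦ ∫_0^{2π} exp(∫_0^T h(gd z θ t) dt) dθ` is `Γ`-invariant since `γ toSL2R z = toSL2R (γ z) kM α`. -/
def EFD_stmt : Prop := ∀ (Γ : Subgroup SL(2, ℝ)) (F : Set ℍ), QU.SurfaceGroup Γ →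
  IsFundamentalDomain Γ F (volume : Measure ℍ) →
  (∀ (h : ℍ → ℝ) (p : ℝ), Continuous h → (∀ (γ : Γ) (z : ℍ), h (γ • z) = h z) →
    (∃ T₀ : ℝ, ∀ T, T₀ ≤ T → ∫ z in F, ∫ θ in (0 : ℝ)..(2 * Real.pi),
      Real.exp (∫ t in (0 : ℝ)..T, h (gd z θ t)) ≤ Real.exp (p * T)) →
    ∀ ε : ℝ, 0 < ε → ∃ r₀ : ℝ, ∀ (r : ℝ) (N : ℕ) (s : Fin N → ℝ) (φ : Fin N → ℍ → ℂ), r₀ ≤ r → 1 ≤ N →
      EFam Γ F r N s φ → (∑ j, ∫ z in F, h z * ‖φ j z‖ ^ 2) / N ≤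
        p + (1 / 2) * (1 - Real.log N / Real.log r) + ε) ∧
  ∀ c : ℝ → ℍ, ClosedGeo Γ c → ∀ ε : ℝ, 0 < ε → ∃ δ r₀ : ℝ, 0 < δ ∧
    ∀ (σ r : ℝ) (N : ℕ) (s : Fin N → ℝ) (φ : Fin N → ℍ → ℂ), r₀ ≤ r → EFam Γ F r N s φ →
      (∀ j, σ ≤ ∫ z in F ∩ Tube Γ c δ, ‖φ j z‖ ^ 2) → (N : ℝ) ≤ r ^ (1 - 2 * σ + ε)

end Pool.Agent.RS
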