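import Pool.Agent.helper62.RS.SpecE

/-!
# MP_07c750, rare scars: rows of block Q (the exceptional set of quantum ergodicity), rows `rs:X`

For every continuous `h` on `M` and `ε > 0` at most `r^{1-δ}` orthonormal eigenfunctions with parameters in `[r, r+1]` have
`∫ h |φ|² ≥ mean h + ε`.
-/

open scoped MatrixGroups ContDiff Topology UpperHalfPlane ComplexConjugate
open UpperHalfPlane MeasureTheory Filter Set

namespace Pool.Agent.RS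

/-- the average of `u` over the pieces of orbits which start on the arc `g lM(v)`, `0 ≤ v ≤ 1` -/
noncomputable def AV (τ : ℝ) (g : SL(2, ℝ)) (u : SL(2, ℝ) → ℝ) : ℝ :=
  ∫ v in (0 : ℝ)..1, τ⁻¹ * ∫ t in (0 : ℝ)..τ, u (g * lM v * aM t)

/-- **Row QAV** (almost invariance; short-medium; from GLC). For `aM x`: `∫_0^τ u(· aM (t+x)) dt` and `∫_0^τ u(· aM t) dt` differ by at most `2|x|m`. For `lM x`: `lM v * aM t * lM x = lM (v + e^{-t} x) * aM t` (GLC), for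
fixed `t` the integrals over `v ∈ [0,1]` of `w(v + y)` and `w(v)`, `y = e^{-t}x`, differ by at most `2|y|m`; interchange the integrals (continuous); `∫_0^τ e^{-t} dt ≤ 1`. -/
def QAV_stmt : Prop := ∀ (τ m x : ℝ) (g : SL(2, ℝ)) (u : SL(2, ℝ) → ℝ), 0 < τ → Continuous u → (∀ g, |u g| ≤ m) →
  |AV τ g (fun k => u (k * aM x)) - AV τ g u| ≤ 2 * |x| * m / τ ∧
  |AV τ g (fun k => u (k * lM x)) - AV τ g u| ≤ 2 * |x| * m / τ

/-- **Row QDV** (derivatives of functions on `M`; medium; from GLC, GBD; QU.A_CVS, QU.A_CVB, QU.A_CA1). `f'` of class `CD 2` and invariant; `F(g) = f'(g • I)`. With the frame at `z = g • I`: `(g * aM t) • I`, `(g * lM u) • I` are smooth curves; use SEQ (`lap` is invariant) to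
reduce the last formula to `g = 1`: `aM t • I = i e^t` (first derivative `f_y`, second `f_yy + f_y`), `lM u • I = (u + i)/(1 + u²)` (first derivative `f_x`, second `f_xx - 2 f_y`), so `A² + A + L² = f_xx + f_yy = -lap f'(I)`. Continuity: the derivatives are explicit in terms of the first and
second derivatives of `onC f'` and the entries of `g` (or: the first and second derivatives of the `C²` function `(g, t) ↦ f'((g * aM t) • I)` of the matrix entries). Invariance: `F(γ g) = F(g)`. `HasDerivAt` for `A1` along `aM`: one-parameter group. -/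
def QDV_stmt : Prop := ∀ (Γ : Subgroup SL(2, ℝ)) (f : ℍ → ℝ), QU.SurfaceGroup Γ → QU.Inv Γ f → QU.CD 2 f →
  ∃ A1 A2 L1 L2 : SL(2, ℝ) → ℝ, InvG Γ A1 ∧ InvG Γ A2 ∧ InvG Γ L1 ∧ InvG Γ L2 ∧ InvG Γ (fun g => f (g • I)) ∧
    (∀ g, HasDerivAt (fun t => f ((g * aM t) • I)) (A1 g) 0) ∧ (∀ g, HasDerivAt (fun t => A1 (g * aM t)) (A2 g) 0) ∧
    (∀ g, HasDerivAt (fun t => f ((g * lM t) • I)) (L1 g) 0) ∧ (∀ g, HasDerivAt (fun t => L1 (g * lM t)) (L2 g) 0) ∧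
    ∀ g, -QU.lap f (g • I) = A2 g + A1 g + L2 g

/-- **Row QZD** (averages of derivatives; short-medium; from GLC, QAV). Let `h = aM` or `lM`, `u'` the derivative of `u` along `h`, both bounded by `m`. `u(g h(1)) - u(g) = ∫_0^1 u'(g h(x)) dx`; take `AV` (Fubini): `|∫_0^1 AV(u'(· h(x))) dx| ≤ 2m/τ` by QAV for `u`, and
`|AV(u'(· h(x))) - AV(u')| ≤ 2m/τ` by QAV for `u'`. -/
def QZD_stmt : Prop := ∀ (τ m : ℝ) (g : SL(2, ℝ)) (h : ℝ → SL(2, ℝ)) (u u' : SL(2, ℝ) → ℝ), (h = aM ∨ h = lM) → 0 < τ →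
  Continuous u → Continuous u' → (∀ g, |u g| ≤ m) → (∀ g, |u' g| ≤ m) →
  (∀ g, HasDerivAt (fun t => u (g * h t)) (u' g) 0) → |AV τ g u'| ≤ 4 * m / τ

/-- **Row QEQ** (equidistribution on average; medium-long; from GBD, QDV, QZD; QU.A_MEA, QU.A_CVS, QU.A_CVB, QU.A_BDD, QU.A_DOB). Suppose not: there are `τ_n ≥ n + 1`, `g_n` with `AV τ_n g_n (h(· • I)) > mean + ε`. `α(f) = lim AV τ_n g_n (fun g => f (g • I))` along a nonprincipal ultrafilter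
(`Filter.hyperfilter ℕ`, bounded real sequences converge along ultrafilters; see the proved row KLI) is in `QU.BFun Γ` with `α(1) = 1`. For `f' = conv κ f` (`CD 2`, CVS; in `Inv`, CVB): `lap f'(g • I) = -(A2 + A1 + L2)` (QDV), and `AV` of each tends to `0` (QZD, GBD): `α(lap f') = 0`. So by MEA
`α(h) vol F = ∫_F h`, but `α(h) ≥ mean + ε`. -/
def QEQ_stmt : Prop := ∀ (Γ : Subgroup SL(2, ℝ)) (F : Set ℍ) (h : ℍ → ℝ) (ε : ℝ), QU.SurfaceGroup Γ →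
  QU.NiceDom Γ F → QU.Inv Γ h → 0 < ε → ∃ τ₀ : ℝ, 0 < τ₀ ∧ ∀ (τ : ℝ) (g : SL(2, ℝ)), τ₀ ≤ τ →
    AV τ g (fun k => h (k • I)) ≤ (∫ z in F, h z) / (volume F).toReal + ε

/-- **Row QRC** (recursion; medium; from GLC). As row VRC. `τ = log m`, `e^τ = m`; `h` with distortion `B`: `|∫_0^τ h((g lM(v) aM t) • I) dt - ∫_0^τ h((g lM(v') aM t) • I) dt| ≤ B` if `|v - v'| ≤ 1/m`. With `Z ≥ ∫_0^1 exp(θ ∫_0^τ h((g lM v aM t) • I) dt) dv` for all `g` one gets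
`∫_0^1 exp(θ ∫_0^{nτ}) ≤ (e^{θB} Z)^n`: split `[0,1]` into the intervals `I_k`, on `I_k` the first factor is at most `e^{θB}` times its mean over `I_k`, the integral of the second factor over `I_k` is `(1/m)` times an integral over `[0,1]` with `g' = g * lM (k/m) * aM τ`. -/
def QRC_stmt : Prop := ∀ (h : ℍ → ℝ) (m : ℕ) (θ B Z : ℝ), Continuous h → 2 ≤ m → 0 ≤ θ → 0 ≤ B →
  (∀ (g : SL(2, ℝ)) (v v' : ℝ), |v - v'| ≤ (m : ℝ)⁻¹ →
    |(∫ t in (0 : ℝ)..Real.log m, h ((g * lM v * aM t) • I)) - ∫ t in (0 : ℝ)..Real.log m, h ((g * lM v' * aM t) • I)| ≤ B) →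
  (∀ g : SL(2, ℝ), ∫ v in (0 : ℝ)..1, Real.exp (θ * ∫ t in (0 : ℝ)..Real.log m, h ((g * lM v * aM t) • I)) ≤ Z) →
  ∀ (n : ℕ) (g : SL(2, ℝ)), ∫ v in (0 : ℝ)..1, Real.exp (θ * ∫ t in (0 : ℝ)..(n * Real.log m), h ((g * lM v * aM t) • I)) ≤
    (Real.exp (θ * B) * Z) ^ n

/-- **Row QEX** (exponential moments; medium; from GLC, GBD, QDV, QEQ, QRC). First `h` of class `CD 2`: `|h((g lM u) • I) - h(g • I)| ≤ B|u|` with a bound `B` for `L1` (QDV, GBD; mean value theorem), and `(g lM v' aM t) • I = (g lM v aM t lM(e^t (v'-v))) • I`, so the distortion is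
`≤ ∫_0^τ B e^{t-τ} dt ≤ B`. `|h| ≤ H`. By QEQ for large `τ = log m` the mean `∫_0^1 ∫_0^τ h ≤ τ (M + ε/4)`; `e^x ≤ 1 + x + x² e^{|x|}`, so `Z = exp(θτ(M + ε/4) + θ²τ²H²e^{θτH})` is admissible. Choose `m` with `B ≤ ετ/4`, then `θ₀` with `θ₀ τ H² e^{θ₀τH} ≤ ε/4`: `e^{θB} Z ≤ exp(θτ(M + 3ε/4))`
for `θ ≤ θ₀`. QRC; for `T` between `nτ` and `(n+1)τ` a factor `e^{θτ(H + |M| + ε)}`. General `h`: ESM within `ε/8`. -/
def QEX_stmt : Prop := ∀ (Γ : Subgroup SL(2, ℝ)) (F : Set ℍ) (h : ℍ → ℝ) (ε : ℝ), QU.SurfaceGroup Γ →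
  QU.NiceDom Γ F → QU.Inv Γ h → 0 < ε → ∃ θ C : ℝ, 0 < θ ∧ 0 < C ∧ ∀ (T : ℝ) (g : SL(2, ℝ)), 0 ≤ T →
    ∫ v in (0 : ℝ)..1, Real.exp (θ * ∫ t in (0 : ℝ)..T, h ((g * lM v * aM t) • I)) ≤
      C * Real.exp (θ * ((∫ z in F, h z) / (volume F).toReal + ε) * T)

/-- **Row QEF** (the exceptional set; medium; from GLC, GFD, GBD, QEX, EP2; QU.A_DOM, QU.A_DOB). Nice `F₀`; integrals over `F`, `F₀` agree. `M` = the mean. QEX with `ε/4`: `θ`, `C`. By right invariance (GFD) `iR F₀ (exp ∫_0^T θh((g aM t) • I)) = ∫_0^1 iR F₀ (…g lM v aM t…) dv ≤ C vol · exp(θ(M + ε/4)T) ≤ exp(θ(M + ε/2)T)` for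
large `T`. EP2 for `θ h`, `p = θ(M + ε/2)`, with `θε/4`: `θ(M + ε) ≤ avg ≤ θ(M + ε/2) + (1/2)(1 - log N/log r) + θε/4`, so `log N/log r ≤ 1 - θε/2`. (`N = 0` trivial.) -/
def QEF_stmt : Prop := ∀ (Γ : Subgroup SL(2, ℝ)) (F : Set ℍ), QU.SurfaceGroup Γ →
  IsFundamentalDomain Γ F (volume : Measure ℍ) → ∀ h : ℍ → ℝ, Continuous h → (∀ (γ : Γ) (z : ℍ), h (γ • z) = h z) →
  ∀ ε : ℝ, 0 < ε → ∃ δ r₀ : ℝ, 0 < δ ∧ ∀ (r : ℝ) (N : ℕ) (s : Fin N → ℝ) (φ : Fin N → ℍ → ℂ), r₀ ≤ r →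
    EFam Γ F r N s φ → (∀ j, (∫ z in F, h z) / (volume F).toReal + ε ≤ ∫ z in F, h z * ‖φ j z‖ ^ 2) →
      (N : ℝ) ≤ r ^ (1 - δ)

end Pool.Agent.RS
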