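import Mathlib
import Pool.Agent.helper62.QU.Spec

/-!
# MP_07c750: scars of eigenfunctions on a closed hyperbolic surface are rare: the notions

`G = SL(2, ℝ)` acts on `ℍ`; `M = Γ \ ℍ`. `Γ \ G` is represented by the set `dG F` of the `g` with `g • i` in a
fundamental domain `F` of `Γ`.
-/

open scoped MatrixGroups ContDiff Topology UpperHalfPlane
open UpperHalfPlane MeasureTheory Filter Set

namespace Pool.Agent.RS

/-- the Borel sets of `SL(2, ℝ)` -/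
instance instMeasSL : MeasurableSpace SL(2, ℝ) := borel _

instance instBorelSL : BorelSpace SL(2, ℝ) := ⟨rfl⟩

/-- the geodesic flow: `aM t` acts on `ℍ` by `z ↦ e^t z` -/
noncomputable def aM (t : ℝ) : SL(2, ℝ) :=
  ⟨!![Real.exp (t / 2), 0; 0, Real.exp (-(t / 2))], by
    rw [Matrix.det_fin_two_of, ← Real.exp_add]; simp⟩

/-- the horocyclic flow `z ↦ z + x` -/
noncomputable def nM (x : ℝ) : SL(2, ℝ) := ⟨!![1, x; 0, 1], by simp⟩

/-- the other horocyclic flow `z ↦ z / (u z + 1)` -/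
noncomputable def lM (u : ℝ) : SL(2, ℝ) := ⟨!![1, 0; u, 1], by simp⟩

/-- rotations about `i` -/
noncomputable def kM (θ : ℝ) : SL(2, ℝ) :=
  ⟨!![Real.cos θ, Real.sin θ; -Real.sin θ, Real.cos θ], by
    rw [Matrix.det_fin_two_of]; nlinarith [Real.sin_sq_add_cos_sq θ]⟩

/-- the Haar measure `dx dy dθ / (2π y²)` of `SL(2, ℝ)` -/
noncomputable def mG : Measure SL(2, ℝ) :=
  Measure.map (fun p : ℍ × ℝ => toSL2R p.1 * kM p.2)
    ((volume : Measure ℍ).prod ((ENNReal.ofReal (2 * Real.pi))⁻¹ •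
      (volume : Measure ℝ).restrict (Ioc 0 (2 * Real.pi))))

/-- the elements `g` with `g • i ∈ F` -/
def dG (F : Set ℍ) : Set SL(2, ℝ) := {g | g • I ∈ F}

/-- continuous left `Γ`-invariant functions on `SL(2, ℝ)` -/
def InvG (Γ : Subgroup SL(2, ℝ)) {E : Type} [NormedAddCommGroup E] (u : SL(2, ℝ) → E) : Prop :=
  Continuous u ∧ ∀ (γ : Γ) (g : SL(2, ℝ)), u ((γ : SL(2, ℝ)) * g) = u g

/-- continuous `Γ`-invariant complex functions on `ℍ` -/
def InvC (Γ : Subgroup SL(2, ℝ)) (u : ℍ → ℂ) : Prop :=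
  Continuous u ∧ ∀ (γ : Γ) (z : ℍ), u (γ • z) = u z

/-- eigenfunctions on `Γ \ ℍ` with eigenvalue `1/4 + s²` -/
def Eig (Γ : Subgroup SL(2, ℝ)) (s : ℝ) (φ : ℍ → ℂ) : Prop :=
  QU.CD ∞ φ ∧ (∀ (γ : Γ) (z : ℍ), φ (γ • z) = φ z) ∧
    ∀ z, QU.lap φ z = ((1 / 4 + s ^ 2 : ℝ) : ℂ) * φ z

/-- smooth functions with compact support on `ℍ` -/
def Tst (f : ℍ → ℂ) : Prop := QU.CD ∞ f ∧ HasCompactSupport f

/-- the pairing `g ↦ ∫ f(z) φ(g z) dz` -/
noncomputable def Wf (f φ : ℍ → ℂ) (g : SL(2, ℝ)) : ℂ := ∫ z : ℍ, f z * φ (g • z)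

/-- the packet `c(z) y^{1/2 + i r}` -/
noncomputable def pk (r : ℝ) (c : ℍ → ℂ) (z : ℍ) : ℂ :=
  c z * ((z.im : ℝ) : ℂ) ^ ((1 / 2 : ℂ) + (r : ℂ) * Complex.I)

/-- the integral over `Γ \ G` -/
noncomputable def iG (F : Set ℍ) (u : SL(2, ℝ) → ℂ) : ℂ := ∫ g in dG F, u g ∂mG

/-- the integral over `Γ \ G` of a real function -/
noncomputable def iR (F : Set ℍ) (u : SL(2, ℝ) → ℝ) : ℝ := ∫ g in dG F, u g ∂mG

end Pool.Agent.RS
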