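import Pool.Agent.helper62.RS.Defs

/-!
# MP_07c750: scars of eigenfunctions on a closed hyperbolic surface are rare: the notions of the theorem
-/

open scoped MatrixGroups ContDiff Topology UpperHalfPlane
open UpperHalfPlane MeasureTheory Filter Set

namespace Pool.Agent.RS

/-- the point at distance `|t|` from `z` on the geodesic through `z` in the direction with the angle `2 θ` -/
noncomputable def gd (z : ℍ) (θ t : ℝ) : ℍ := toSL2R z • kM θ • aM t • I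

/-- `φ_1, ..., φ_N` are orthonormal smooth functions on `M = Γ \ ℍ` with `Δ φ_j = (1/4 + s_j²) φ_j` and
`r ≤ s_j ≤ r + 1` -/
def EFam (Γ : Subgroup SL(2, ℝ)) (F : Set ℍ) (r : ℝ) (N : ℕ) (s : Fin N → ℝ) (φ : Fin N → ℍ → ℂ) : Prop :=
  (∀ j, r ≤ s j ∧ s j ≤ r + 1) ∧ (∀ j, Eig Γ (s j) (φ j)) ∧
    ∀ i j, ∫ z in F, φ i z * (starRingEnd ℂ) (φ j z) = if i = j then 1 else 0

/-- `c` is a closed geodesic of `M = Γ \ ℍ`, parametrised by arc length and lifted to `ℍ` -/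
def ClosedGeo (Γ : Subgroup SL(2, ℝ)) (c : ℝ → ℍ) : Prop :=
  (∀ t t' : ℝ, dist (c t) (c t') = |t - t'|) ∧ ∃ (γ : Γ) (l : ℝ), 0 < l ∧ ∀ t, γ • c t = c (t + l)

/-- the points of `ℍ` whose image in `M` is at distance `< δ` from the image of `c` -/
def Tube (Γ : Subgroup SL(2, ℝ)) (c : ℝ → ℍ) (δ : ℝ) : Set ℍ :=
  {z | ∃ (γ : Γ) (t : ℝ), dist (γ • z) (c t) < δ}

end Pool.Agent.RS
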