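import Pool.Agent.helper62.RS.FDefs

/-!
# MP_07c750: test functions with Lipschitz constant `1`
-/

set_option autoImplicit false

open scoped MatrixGroups Topology UpperHalfPlane
open UpperHalfPlane MeasureTheory Set

namespace Pool.Agent.RS

/-- `Γ`-invariant functions with Lipschitz constant `1`: the `1`-Lipschitz functions on `M = Γ \ ℍ` -/
def Lip1 (Γ : Subgroup SL(2, ℝ)) (h : ℍ → ℝ) : Prop :=
  (∀ z w : ℍ, |h z - h w| ≤ dist z w) ∧ ∀ (γ : Γ) (z : ℍ), h (γ • z) = h z

end Pool.Agent.RS
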