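import Pool.Agent.helper62.RS.All
import Pool.Agent.helper62.RS.LipDefs

/-!
# MP_07c750: counting forms of the theorems on scars and exceptional eigenfunctions
-/

set_option autoImplicit false

open scoped MatrixGroups Topology UpperHalfPlane
open UpperHalfPlane MeasureTheory Set

namespace Pool.Agent.RS

theorem FN_sub {Γ : Subgroup SL(2, ℝ)} {F : Set ℍ} {r : ℝ} {N : ℕ} {s : Fin N → ℝ}
    {φ : Fin N → ℍ → ℂ} (h : EFam Γ F r N s φ) (J : Finset (Fin N)) :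
    EFam Γ F r J.card (fun i => s (J.orderEmbOfFin rfl i)) (fun i => φ (J.orderEmbOfFin rfl i)) := by
  refine ⟨fun j => h.1 _, fun j => h.2.1 _, fun i j => ?_⟩
  rw [h.2.2]
  by_cases hij : i = j
  · rw [if_pos hij, hij, if_pos rfl]
  · rw [if_neg hij, if_neg (fun he => hij ((J.orderEmbOfFin rfl).injective he))]

/-- counting form of a bound for families -/
theorem FN_count {Γ : Subgroup SL(2, ℝ)} {F : Set ℍ} {r B : ℝ} {P : (ℍ → ℂ) → Prop}
    (H : ∀ (N : ℕ) (s : Fin N → ℝ) (φ : Fin N → ℍ → ℂ), EFam Γ F r N s φ → (∀ j, P (φ j)) →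
      (N : ℝ) ≤ B) {N : ℕ} {s : Fin N → ℝ} {φ : Fin N → ℍ → ℂ} (h : EFam Γ F r N s φ) :
    (({j : Fin N | P (φ j)}.ncard : ℕ) : ℝ) ≤ B := by
  classical
  set J : Finset (Fin N) := Finset.univ.filter fun j => P (φ j) with hJ
  have hJP : ∀ j ∈ J, P (φ j) := fun j hj => (Finset.mem_filter.1 hj).2
  have h1 : {j : Fin N | P (φ j)}.ncard = J.card := by
    rw [← Set.ncard_coe_finset]
    congr 1
    ext j
    simp [hJ]
  rw [h1]
  exact H _ _ _ (FN_sub h J) fun i => hJP _ (Finset.orderEmbOfFin_mem J rfl i)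

theorem FN_scar {Γ : Subgroup SL(2, ℝ)} {F : Set ℍ} (hΓ : QU.SurfaceGroup Γ)
    (hF : IsFundamentalDomain Γ F (volume : Measure ℍ)) {c : ℝ → ℍ} (hc : ClosedGeo Γ c) {ε : ℝ}
    (hε : 0 < ε) : ∃ δ r₀ : ℝ, 0 < δ ∧
      ∀ (σ r : ℝ) (N : ℕ) (s : Fin N → ℝ) (φ : Fin N → ℍ → ℂ), r₀ ≤ r → EFam Γ F r N s φ →
        ({j : Fin N | σ ≤ ∫ z in F ∩ Tube Γ c δ, ‖φ j z‖ ^ 2}.ncard : ℝ) ≤ r ^ (1 - 2 * σ + ε) := by
  obtain ⟨δ, r₀, hδ, H⟩ := (A_EFD Γ F hΓ hF).2 c hc ε hε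
  refine ⟨δ, r₀, hδ, fun σ r N s φ hr h => ?_⟩
  exact FN_count (P := fun u => σ ≤ ∫ z in F ∩ Tube Γ c δ, ‖u z‖ ^ 2)
    (fun N s φ h1 h2 => H σ r N s φ hr h1 h2) h

/-- the property `P` is rare among orthonormal eigenfunctions of a window -/
def Few (Γ : Subgroup SL(2, ℝ)) (F : Set ℍ) (P : (ℍ → ℂ) → Prop) : Prop :=
  ∃ δ r₀ : ℝ, 0 < δ ∧ ∀ (r : ℝ) (N : ℕ) (s : Fin N → ℝ) (φ : Fin N → ℍ → ℂ), r₀ ≤ r →
    EFam Γ F r N s φ → ({j : Fin N | P (φ j)}.ncard : ℝ) ≤ r ^ (1 - δ)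

theorem Few_or {Γ : Subgroup SL(2, ℝ)} {F : Set ℍ} {P Q : (ℍ → ℂ) → Prop} (hP : Few Γ F P)
    (hQ : Few Γ F Q) : Few Γ F (fun u => P u ∨ Q u) := by
  obtain ⟨δ₁, r₁, h1, H1⟩ := hP
  obtain ⟨δ₂, r₂, h2, H2⟩ := hQ
  set δ := min δ₁ δ₂ with hδ
  have hδ0 : 0 < δ := lt_min h1 h2
  refine ⟨δ / 2, max (max r₁ r₂) (max 1 ((2 : ℝ) ^ (2 / δ))), by positivity,
    fun r N s φ hr h => ?_⟩
  have hr1 : r₁ ≤ r := (le_max_left _ _).trans ((le_max_left _ _).trans hr)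
  have hr2 : r₂ ≤ r := (le_max_right _ _).trans ((le_max_left _ _).trans hr)
  have hr3 : 1 ≤ r := (le_max_left _ _).trans ((le_max_right _ _).trans hr)
  have hr4 : (2 : ℝ) ^ (2 / δ) ≤ r := (le_max_right _ _).trans ((le_max_right _ _).trans hr)
  have e1 : {j : Fin N | P (φ j) ∨ Q (φ j)} = {j | P (φ j)} ∪ {j | Q (φ j)} := rfl
  have e2 : (({j : Fin N | P (φ j) ∨ Q (φ j)}.ncard : ℕ) : ℝ) ≤
      ({j | P (φ j)}.ncard : ℝ) + ({j | Q (φ j)}.ncard : ℝ) := by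
    rw [e1]
    exact_mod_cast Set.ncard_union_le _ _
  have e3 : r ^ (1 - δ₁) ≤ r ^ (1 - δ) :=
    Real.rpow_le_rpow_of_exponent_le hr3 (by linarith [min_le_left δ₁ δ₂])
  have e4 : r ^ (1 - δ₂) ≤ r ^ (1 - δ) :=
    Real.rpow_le_rpow_of_exponent_le hr3 (by linarith [min_le_right δ₁ δ₂])
  have e5 : (2 : ℝ) ≤ r ^ (δ / 2) := by
    have : ((2 : ℝ) ^ (2 / δ)) ^ (δ / 2) = 2 := by
      rw [← Real.rpow_mul (by norm_num)]
      have : 2 / δ * (δ / 2) = 1 := by field_simp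
      rw [this, Real.rpow_one]
    calc (2 : ℝ) = ((2 : ℝ) ^ (2 / δ)) ^ (δ / 2) := this.symm
      _ ≤ r ^ (δ / 2) := Real.rpow_le_rpow (by positivity) hr4 (by positivity)
  have hrp : 0 < r := by linarith
  calc (({j : Fin N | P (φ j) ∨ Q (φ j)}.ncard : ℕ) : ℝ) ≤ r ^ (1 - δ₁) + r ^ (1 - δ₂) :=
        e2.trans (add_le_add (H1 r N s φ hr1 h) (H2 r N s φ hr2 h))
    _ ≤ 2 * r ^ (1 - δ) := by linarith
    _ ≤ r ^ (δ / 2) * r ^ (1 - δ) := mul_le_mul_of_nonneg_right e5 (by positivity)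
    _ = r ^ (1 - δ / 2) := by
        rw [← Real.rpow_add hrp]
        congr 1
        ring

theorem Few_mono {Γ : Subgroup SL(2, ℝ)} {F : Set ℍ} {P Q : (ℍ → ℂ) → Prop} (hQ : Few Γ F Q)
    (h : ∀ (s : ℝ) (u : ℍ → ℂ), Eig Γ s u → (∫ z in F, u z * (starRingEnd ℂ) (u z) = 1) → P u →
      Q u) : Few Γ F P := by
  obtain ⟨δ, r₀, hδ, H⟩ := hQ
  refine ⟨δ, r₀, hδ, fun r N s φ hr hE => le_trans ?_ (H r N s φ hr hE)⟩
  have : {j : Fin N | P (φ j)} ⊆ {j | Q (φ j)} := by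
    intro j hj
    exact h (s j) (φ j) (hE.2.1 j) (by rw [hE.2.2 j j, if_pos rfl]) hj
  exact_mod_cast Set.ncard_le_ncard this (Set.toFinite _)

theorem Few_false {Γ : Subgroup SL(2, ℝ)} {F : Set ℍ} : Few Γ F (fun _ => False) := by
  refine ⟨1, 1, one_pos, fun r N s φ hr _ => ?_⟩
  have : {j : Fin N | False} = ∅ := by
    ext
    simp
  rw [this, Set.ncard_empty]
  have : 0 < r := by linarith
  simp

theorem Few_ex {Γ : Subgroup SL(2, ℝ)} {F : Set ℍ} {ι : Type*} (P : ι → (ℍ → ℂ) → Prop)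
    (H : Set ι) (hH : H.Finite) (h : ∀ i ∈ H, Few Γ F (P i)) : Few Γ F (fun u => ∃ i ∈ H, P i u) := by
  induction H, hH using Set.Finite.induction_on with
  | empty => exact Few_mono Few_false (by rintro s u - - ⟨i, hi, -⟩; exact hi)
  | insert ha hs ih =>
    refine Few_mono (Few_or (h _ (Set.mem_insert _ _)) (ih fun i hi => h i (Set.mem_insert_of_mem _ hi)))
      ?_
    rintro s u - - ⟨i, hi, hP⟩
    rcases hi with rfl | hi
    · exact Or.inl hP
    · exact Or.inr ⟨i, hi, hP⟩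

/-- two-sided form for one test function -/
theorem Few_one {Γ : Subgroup SL(2, ℝ)} {F : Set ℍ} (hΓ : QU.SurfaceGroup Γ)
    (hF : IsFundamentalDomain Γ F (volume : Measure ℍ)) {h : ℍ → ℝ} (hc : Continuous h)
    (hi : ∀ (γ : Γ) (z : ℍ), h (γ • z) = h z) {ε : ℝ} (hε : 0 < ε) :
    Few Γ F (fun u => ε ≤ |(∫ z in F, h z * ‖u z‖ ^ 2) - (∫ z in F, h z) / (volume F).toReal|) := by
  have key : ∀ g : ℍ → ℝ, Continuous g → (∀ (γ : Γ) (z : ℍ), g (γ • z) = g z) →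
      Few Γ F (fun u => (∫ z in F, g z) / (volume F).toReal + ε ≤ ∫ z in F, g z * ‖u z‖ ^ 2) := by
    intro g hg hgi
    obtain ⟨δ, r₀, hδ, H⟩ := A_QEF Γ F hΓ hF g hg hgi ε hε
    refine ⟨δ, r₀, hδ, fun r N s φ hr hE => ?_⟩
    exact FN_count (P := fun u => (∫ z in F, g z) / (volume F).toReal + ε ≤ ∫ z in F, g z * ‖u z‖ ^ 2)
      (fun N s φ h1 h2 => H r N s φ hr h1 h2) hE
  refine Few_mono (Few_or (key h hc hi) (key (fun z => -h z) hc.neg fun γ z => by rw [hi])) ?_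
  rintro s u - - hu
  rcases le_abs.1 hu with h1 | h1
  · left
    linarith
  · right
    have e1 : ∫ z in F, -h z = -∫ z in F, h z := integral_neg _
    have e2 : ∫ z in F, -h z * ‖u z‖ ^ 2 = -∫ z in F, h z * ‖u z‖ ^ 2 := by
      rw [← integral_neg]
      refine integral_congr_ae (Filter.Eventually.of_forall fun z => ?_)
      simp only
      ring
    simp only [e1, e2, neg_div]
    linarith

theorem Lip1_cont {Γ : Subgroup SL(2, ℝ)} {h : ℍ → ℝ} (hh : Lip1 Γ h) : Continuous h := by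
  refine continuous_iff_continuousAt.2 fun z => Metric.tendsto_nhds.2 fun ε hε => ?_
  filter_upwards [Metric.ball_mem_nhds z hε] with w hw
  rw [Real.dist_eq]
  exact (hh.1 w z).trans_lt hw

/-- a finite net of the Lipschitz functions modulo constants -/
theorem FN_net {Γ : Subgroup SL(2, ℝ)} (hΓ : QU.SurfaceGroup Γ) {η : ℝ} (hη : 0 < η) :
    ∃ H : Set (ℍ → ℝ), H.Finite ∧ (∀ h ∈ H, Lip1 Γ h) ∧ ∀ h, Lip1 Γ h → ∃ h' ∈ H,
      ∀ z, |(h z - h I) - (h' z - h' I)| ≤ 3 * η := by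
  classical
  obtain ⟨K, hK, hKc⟩ := hΓ.cocompact
  obtain ⟨t, htK, htf, htc⟩ := Metric.finite_approx_of_totallyBounded hK.totallyBounded η hη
  obtain ⟨R, hR⟩ := hK.isBounded.subset_closedBall I
  have : Finite t := htf.to_subtype
  have : Fintype t := Fintype.ofFinite t
  let code : {h : ℍ → ℝ // Lip1 Γ h} → (t → ℤ) := fun h y => ⌊(h.1 y - h.1 I) / η⌋
  have hfin : (Set.range code).Finite := by
    refine (Set.finite_Icc (fun _ : t => ⌊-(R / η)⌋) (fun _ : t => ⌊R / η⌋)).subset ?_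
    rintro _ ⟨h, rfl⟩
    have hb : ∀ y : t, |(h.1 y - h.1 I) / η| ≤ R / η := by
      intro y
      rw [abs_div, abs_of_pos hη]
      refine div_le_div_of_nonneg_right ((h.2.1 _ _).trans ?_) hη.le
      exact hR (htK y.2)
    exact ⟨fun y => Int.floor_le_floor (abs_le.1 (hb y)).1,
      fun y => Int.floor_le_floor (abs_le.1 (hb y)).2⟩
  let rep : Set.range code → {h : ℍ → ℝ // Lip1 Γ h} := Set.rangeSplitting code
  have : Finite (Set.range code) := hfin.to_subtype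
  refine ⟨Set.range fun c => (rep c).1, Set.finite_range _, ?_, ?_⟩
  · rintro _ ⟨c, rfl⟩
    exact (rep c).2
  · intro h hh
    set c : Set.range code := ⟨code ⟨h, hh⟩, ⟨⟨h, hh⟩, rfl⟩⟩ with hc
    refine ⟨(rep c).1, ⟨c, rfl⟩, ?_⟩
    have hcode : code (rep c) = code ⟨h, hh⟩ := Set.apply_rangeSplitting code c
    set h' := (rep c).1 with hh'
    have hL' : Lip1 Γ h' := (rep c).2
    have hnet : ∀ y : t, |(h y - h I) - (h' y - h' I)| < η := by
      intro y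
      have h1 : ⌊(h' y - h' I) / η⌋ = ⌊(h y - h I) / η⌋ := congrFun hcode y
      have h2 := Int.abs_sub_lt_one_of_floor_eq_floor h1.symm
      rw [← sub_div, abs_div, abs_of_pos hη, div_lt_one hη] at h2
      exact h2
    have hKz : ∀ z ∈ K, |(h z - h I) - (h' z - h' I)| ≤ 3 * η := by
      intro z hz
      obtain ⟨y, hy, hyz⟩ := Set.mem_iUnion₂.1 (htc hz)
      have h1 := hnet ⟨y, hy⟩
      have h2 := hh.1 z y
      have h3 := hL'.1 z y
      have h4 : dist z y < η := hyz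
      rw [abs_le] at h2 h3 ⊢
      rw [abs_lt] at h1
      simp only at h1
      constructor <;> linarith [h1.1, h1.2, h2.1, h2.2, h3.1, h3.2]
    intro z
    obtain ⟨γ, hγ⟩ := hKc z
    have := hKz _ hγ
    rwa [hh.2, hL'.2] at this

theorem Lip1_bdd {Γ : Subgroup SL(2, ℝ)} (hΓ : QU.SurfaceGroup Γ) {h : ℍ → ℝ} (hh : Lip1 Γ h) :
    ∃ m : ℝ, ∀ z, |h z| ≤ m := by
  obtain ⟨K, hK, hKc⟩ := hΓ.cocompact
  obtain ⟨R, hR⟩ := hK.isBounded.subset_closedBall I
  refine ⟨|h I| + R, fun z => ?_⟩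
  obtain ⟨γ, hγ⟩ := hKc z
  rw [← hh.2 γ z]
  have h1 : dist (γ • z) I ≤ R := hR hγ
  have h2 := hh.1 (γ • z) I
  have h3 : |h (γ • z)| ≤ |h I| + |h (γ • z) - h I| := by
    have := abs_add_le (h I) (h (γ • z) - h I)
    rwa [add_sub_cancel] at this
  linarith

/-- all but few eigenfunctions are close to uniform, uniformly for Lipschitz test functions -/
theorem FN_exc {Γ : Subgroup SL(2, ℝ)} {F : Set ℍ} (hΓ : QU.SurfaceGroup Γ)
    (hF : IsFundamentalDomain Γ F (volume : Measure ℍ)) {ε : ℝ} (hε : 0 < ε) :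
    Few Γ F (fun u => ∃ h : ℍ → ℝ, Lip1 Γ h ∧
      ε ≤ |(∫ z in F, h z * ‖u z‖ ^ 2) - (∫ z in F, h z) / (volume F).toReal|) := by
  obtain ⟨F₀, hF₀⟩ := QU.A_DOM Γ hΓ
  obtain ⟨-, -, hpos, hfin, hany, -⟩ := QU.A_DOB Γ F₀ hΓ hF₀
  have hvol : volume F = volume F₀ := (hany F hF).1
  have hV : 0 < (volume F).toReal := by
    rw [hvol]
    exact ENNReal.toReal_pos hpos.ne' hfin.ne
  have : IsFiniteMeasure ((volume : Measure ℍ).restrict F) :=
    ⟨by rw [Measure.restrict_apply_univ, hvol]; exact hfin⟩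
  obtain ⟨H, hHf, hHL, hH⟩ := FN_net hΓ (η := ε / 12) (by positivity)
  have h1 := Few_ex (Γ := Γ) (F := F) (fun (h' : ℍ → ℝ) (u : ℍ → ℂ) =>
    ε / 2 ≤ |(∫ z in F, h' z * ‖u z‖ ^ 2) - (∫ z in F, h' z) / (volume F).toReal|) H hHf
    (fun h' hh' => Few_one hΓ hF (Lip1_cont (hHL h' hh')) (hHL h' hh').2 (by positivity))
  refine Few_mono h1 ?_
  rintro s u hu hn ⟨h, hh, hdev⟩
  obtain ⟨h', hh', hd⟩ := hH h hh
  refine ⟨h', hh', ?_⟩
  -- integrability
  have hi0 : Integrable (fun z => u z * (starRingEnd ℂ) (u z)) (volume.restrict F) := by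
    by_contra hni
    rw [integral_undef hni] at hn
    exact zero_ne_one hn
  have e0 : ∀ z, u z * (starRingEnd ℂ) (u z) = ((‖u z‖ ^ 2 : ℝ) : ℂ) := by
    intro z
    rw [Complex.mul_conj, Complex.normSq_eq_norm_sq]
  simp only [e0] at hi0 hn
  have hi1 : Integrable (fun z => ‖u z‖ ^ 2) (volume.restrict F) :=
    hi0.re.congr (Filter.Eventually.of_forall fun z => Complex.ofReal_re _)
  have hn1 : ∫ z in F, ‖u z‖ ^ 2 = 1 := by
    rw [integral_complex_ofReal] at hn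
    exact_mod_cast hn
  have hint : ∀ g : ℍ → ℝ, Continuous g → (∃ m, ∀ z, |g z| ≤ m) →
      Integrable (fun z => g z * ‖u z‖ ^ 2) (volume.restrict F) ∧
        Integrable g (volume.restrict F) := by
    rintro g hg ⟨m, hm⟩
    refine ⟨hi1.bdd_mul hg.aestronglyMeasurable (c := m)
      (Filter.Eventually.of_forall fun z => by rw [Real.norm_eq_abs]; exact hm z), ?_⟩
    exact Integrable.of_bound hg.aestronglyMeasurable m
      (Filter.Eventually.of_forall fun z => by rw [Real.norm_eq_abs]; exact hm z)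
  obtain ⟨a1, a2⟩ := hint h (Lip1_cont hh) (Lip1_bdd hΓ hh)
  obtain ⟨b1, b2⟩ := hint h' (Lip1_cont (hHL h' hh')) (Lip1_bdd hΓ (hHL h' hh'))
  set g : ℍ → ℝ := fun z => (h z - h I) - (h' z - h' I) with hg
  have hgc : Continuous g := ((Lip1_cont hh).sub continuous_const).sub
    ((Lip1_cont (hHL h' hh')).sub continuous_const)
  obtain ⟨g1, g2⟩ := hint g hgc ⟨3 * (ε / 12), hd⟩
  have e1 : (∫ z in F, h z * ‖u z‖ ^ 2) - (∫ z in F, h' z * ‖u z‖ ^ 2) =
      (∫ z in F, g z * ‖u z‖ ^ 2) + (h I - h' I) := by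
    rw [← integral_sub a1 b1]
    have : (∫ z in F, (h I - h' I) * ‖u z‖ ^ 2) = h I - h' I := by
      rw [integral_const_mul, hn1, mul_one]
    rw [← this, ← integral_add g1 (hi1.const_mul _)]
    refine integral_congr_ae (Filter.Eventually.of_forall fun z => ?_)
    simp only [hg]
    ring
  have e2 : (∫ z in F, h z) - (∫ z in F, h' z) =
      (∫ z in F, g z) + (h I - h' I) * (volume F).toReal := by
    rw [← integral_sub a2 b2]
    have : (∫ _ in F, (h I - h' I)) = (h I - h' I) * (volume F).toReal := by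
      rw [setIntegral_const, smul_eq_mul, mul_comm]
      rfl
    rw [← this, ← integral_add g2 (integrable_const _)]
    refine integral_congr_ae (Filter.Eventually.of_forall fun z => ?_)
    simp only [hg]
    ring
  have e3 : |∫ z in F, g z * ‖u z‖ ^ 2| ≤ 3 * (ε / 12) := by
    have h2 : ∀ z, ‖g z * ‖u z‖ ^ 2‖ ≤ 3 * (ε / 12) * ‖u z‖ ^ 2 := by
      intro z
      rw [norm_mul, Real.norm_eq_abs, Real.norm_of_nonneg (sq_nonneg _)]
      exact mul_le_mul_of_nonneg_right (hd z) (sq_nonneg _)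
    have h3 := norm_integral_le_of_norm_le (hi1.const_mul (3 * (ε / 12)))
      (Filter.Eventually.of_forall h2)
    rw [integral_const_mul, hn1, mul_one] at h3
    exact h3
  have e4 : |∫ z in F, g z| ≤ 3 * (ε / 12) * (volume F).toReal := by
    have h3 := norm_integral_le_of_norm_le_const (μ := volume.restrict F) (f := g) (C := 3 * (ε / 12))
      (Filter.Eventually.of_forall fun z => by rw [Real.norm_eq_abs]; exact hd z)
    rw [Measure.real, Measure.restrict_apply_univ] at h3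
    exact h3
  have e5 : (∫ z in F, h' z * ‖u z‖ ^ 2) - (∫ z in F, h' z) / (volume F).toReal =
      (∫ z in F, h z * ‖u z‖ ^ 2) - (∫ z in F, h z) / (volume F).toReal -
        (∫ z in F, g z * ‖u z‖ ^ 2) + (∫ z in F, g z) / (volume F).toReal := by
    have h5 : (∫ z in F, h' z) / (volume F).toReal = (∫ z in F, h z) / (volume F).toReal -
        (∫ z in F, g z) / (volume F).toReal - (h I - h' I) := by
      field_simp
      linarith
    rw [h5]
    linarith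
  have e6 : |(∫ z in F, g z) / (volume F).toReal| ≤ 3 * (ε / 12) := by
    rw [abs_div, abs_of_pos hV, div_le_iff₀ hV]
    exact e4
  rw [e5]
  rw [abs_le] at e3 e6
  rcases le_abs.1 hdev with h7 | h7
  · refine le_trans ?_ (le_abs_self _)
    linarith [e3.1, e3.2, e6.1, e6.2]
  · refine le_trans ?_ (neg_le_abs _)
    linarith [e3.1, e3.2, e6.1, e6.2]

end Pool.Agent.RS
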